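import Pool.Agent.H60R2.SF.Fac
import Pool.Agent.Helper781.CycHouse.House

/-!
Abstract form: a self-dual object all of whose tensor powers decompose into a finite Schur list,
with a non-negative additive dimension which is multiplied by `lam` under `- ⊗ P`. Then `lam` is
the house of a cyclotomic integer.
-/

set_option autoImplicit false
set_option linter.unusedSectionVars false

open CategoryTheory CategoryTheory.Limits MonoidalCategory

namespace Pool.Agent.H60R2.SF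

open Pool.Agent.Helper781.Fusion (Kcyc in_cyc)
open Pool.Agent.Helper781.CycHouse (IsHouse int_of_field aeval_conj)
open Polynomial in
/-- A cyclotomic Perron-Frobenius eigenvalue of a matrix of natural numbers is the house of a
cyclotomic integer. -/
lemma isHouse_of_pf {κ : Type} [Fintype κ] [DecidableEq κ] (A : Matrix κ κ ℕ) (d : ℝ)
    (hA : IsPF A d) (hd : (d : ℂ) ∈ Kcyc) : IsHouse d := by
  obtain ⟨h1, h2⟩ := hA
  obtain ⟨N, ζ, hN, hζ, hmem⟩ := in_cyc hd
  set P : ℤ[X] := (A.map (fun x : ℕ => (x : ℤ))).charpoly with hP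
  have hmap : (A.map (fun x : ℕ => (x : ℂ))).charpoly = P.map (Int.castRingHom ℂ) := by
    rw [hP, ← Matrix.charpoly_map]
    congr 1
  have hroot : ∀ z : ℂ, z ∈ spectrum ℂ (A.map (fun x : ℕ => (x : ℂ))) ↔ aeval z P = 0 := by
    intro z
    rw [Matrix.mem_spectrum_iff_isRoot_charpoly, hmap, Polynomial.IsRoot, Polynomial.eval_map,
      Polynomial.aeval_def]
    rfl
  have hd0 : aeval (d : ℂ) P = 0 := (hroot _).mp h1
  have hint : IsIntegral ℤ (d : ℂ) := ⟨P, Matrix.charpoly_monic _, hd0⟩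
  obtain ⟨f, hf⟩ := int_of_field hN hζ d hint hmem
  have hnn : 0 ≤ d := (norm_nonneg _).trans (h2 _ h1)
  refine ⟨N, f, hN, ⟨ζ, hζ, ?_⟩, ?_⟩
  · rw [hf, Complex.norm_real, Real.norm_of_nonneg hnn]
  · intro z hz
    apply h2
    rw [hroot]
    have h3 : aeval ζ (P.comp f) = 0 := by rw [aeval_comp, hf, hd0]
    have h4 := aeval_conj hN _ hζ hz h3
    rwa [aeval_comp] at h4

universe v u

variable {D : Type u} [Category.{v} D] [Preadditive D] [Linear ℂ D] [MonoidalCategory D]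
  [MonoidalPreadditive D] [MonoidalLinear ℂ D]
variable {κ : Type} [Fintype κ] [DecidableEq κ] {S : κ → D}

/-- Tensor powers. -/
def ppow (P : D) : ℕ → D
  | 0 => 𝟙_ D
  | k + 1 => P ⊗ ppow P k

lemma ppow_add (P : D) (k l : ℕ) : Nonempty (ppow P k ⊗ ppow P l ≅ ppow P (k + l)) := by
  induction k with
  | zero => exact ⟨λ_ _ ≪≫ eqToIso (by rw [Nat.zero_add])⟩
  | succ k ih =>
    obtain ⟨e⟩ := ih
    exact ⟨α_ _ _ _ ≪≫ whiskerLeftIso P e ≪≫ eqToIso (by rw [Nat.succ_add]; rfl)⟩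

/-- An additive dimension. -/
structure DimData (P : D) (lam : ℝ) where
  rel : D → ℝ → Prop
  unique : ∀ {X : D} {a b : ℝ}, rel X a → rel X b → a = b
  add : ∀ {Z : D} {n : ℕ} (T : Fin n → D) (inc : ∀ b, T b ⟶ Z) (prj : ∀ b, Z ⟶ T b),
    ∑ b, prj b ≫ inc b = 𝟙 Z → (∀ b, inc b ≫ prj b = 𝟙 (T b)) →
    (∀ b b', b ≠ b' → inc b ≫ prj b' = 0) → ∀ c : Fin n → ℝ, (∀ b, rel (T b) (c b)) →
    rel Z (∑ b, c b)
  tens : ∀ {X : D} {a : ℝ}, rel X a → rel (X ⊗ P) (lam * a)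
  nonneg : ∀ {X : D} {a : ℝ}, rel X a → 0 ≤ a
  unit : rel (𝟙_ D) 1
  retract : ∀ {X Y : D} {a : ℝ} (s : X ⟶ Y) (t : Y ⟶ X), s ≫ t = 𝟙 X → rel Y a → ∃ b, rel X b

lemma DimData.iso {P : D} {lam : ℝ} (dd : DimData P lam) {X Y : D} (e : X ≅ Y) {a : ℝ}
    (h : dd.rel Y a) : dd.rel X a := by
  have := dd.add (Z := X) (n := 1) (fun _ => Y) (fun _ => e.inv) (fun _ => e.hom) (by simp)
    (by simp) (by intro b b' h; exact absurd (Subsingleton.elim _ _) h) (fun _ => a) (fun _ => h)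
  simpa using this

lemma DimData.tens_pow {P : D} {lam : ℝ} (dd : DimData P lam) (k : ℕ) :
    ∀ {X : D} {a : ℝ}, dd.rel X a → dd.rel (X ⊗ ppow P k) (lam ^ k * a) := by
  induction k with
  | zero =>
    intro X a h
    rw [pow_zero, one_mul]
    exact dd.iso (ρ_ X) h
  | succ k ih =>
    intro X a h
    have h1 := ih (dd.tens h)
    have h2 := dd.iso (α_ X P (ppow P k)).symm h1
    have e : lam ^ (k + 1) * a = lam ^ k * (lam * a) := by ring
    rw [e]
    exact h2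

/-- Moving tensor powers of a self-dual object to the other side. -/
lemma move_right {P : D} [ExactPairing P P] {lam : ℝ} (dd : DimData P lam)
    (hT : ∀ X Y : D, Fac S X → Fac S Y → Fac S (X ⊗ Y)) (h1 : Fac S (𝟙_ D)) (hP : Fac S P)
    (k : ℕ) : ∃ Y : D, Fac S Y ∧
      (∀ (A B : D) (f : A ⊗ ppow P k ⟶ B), f ≠ 0 → ∃ g : A ⟶ B ⊗ Y, g ≠ 0) ∧
      (∀ {Z : D} {a : ℝ}, dd.rel Z a → dd.rel (Z ⊗ Y) (lam ^ k * a)) := by
  induction k with
  | zero =>
    refine ⟨𝟙_ D, h1, ?_, ?_⟩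
    · intro A B f hf
      refine ⟨(ρ_ A).inv ≫ f ≫ (ρ_ B).inv, ?_⟩
      intro h0
      apply hf
      have : f = (ρ_ A).hom ≫ ((ρ_ A).inv ≫ f ≫ (ρ_ B).inv) ≫ (ρ_ B).hom := by simp
      rw [this, h0, zero_comp]
      exact comp_zero
    · intro Z a h
      rw [pow_zero, one_mul]
      exact dd.iso (ρ_ Z) h
  | succ k ih =>
    obtain ⟨Y, hY, hm, hd⟩ := ih
    refine ⟨Y ⊗ P, hT _ _ hY hP, ?_, ?_⟩
    · intro A B f hf
      have hf' : (α_ A P (ppow P k)).hom ≫ f ≠ 0 := by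
        intro h0
        apply hf
        have : f = (α_ A P (ppow P k)).inv ≫ (α_ A P (ppow P k)).hom ≫ f := by simp
        rw [this, h0]
        exact comp_zero
      obtain ⟨g, hg⟩ := hm (A ⊗ P) B ((α_ A P (ppow P k)).hom ≫ f) hf'
      refine ⟨tensorRightHomEquiv A P P (B ⊗ Y) g ≫ (α_ B Y P).hom, ?_⟩
      intro h0
      apply hg
      apply (tensorRightHomEquiv A P P (B ⊗ Y)).injective
      have h2 : tensorRightHomEquiv A P P (B ⊗ Y) 0 = 0 := by
        simp [tensorRightHomEquiv]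
      rw [h2]
      have : tensorRightHomEquiv A P P (B ⊗ Y) g =
          (tensorRightHomEquiv A P P (B ⊗ Y) g ≫ (α_ B Y P).hom) ≫ (α_ B Y P).inv := by simp
      rw [this, h0, zero_comp]
    · intro Z a h
      have h2 := dd.tens (hd h)
      have h3 := dd.iso (α_ Z Y P).symm h2
      have e : lam ^ (k + 1) * a = lam * (lam ^ k * a) := by ring
      rw [e]
      exact h3

lemma le_of_pow_le {x y C : ℝ} (hx : 0 ≤ x) (hy : 0 ≤ y) (h : ∀ k : ℕ, x ^ k ≤ C * y ^ k) :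
    x ≤ y := by
  by_contra hcon
  push Not at hcon
  have hx0 : 0 < x := lt_of_le_of_lt hy hcon
  have h1 : Filter.Tendsto (fun k : ℕ => C * (y / x) ^ k) Filter.atTop (nhds (C * 0)) :=
    (tendsto_pow_atTop_nhds_zero_of_lt_one (div_nonneg hy hx)
      ((div_lt_one hx0).mpr hcon)).const_mul C
  have h2 : ∀ k : ℕ, 1 ≤ C * (y / x) ^ k := by
    intro k
    have := h k
    rw [div_pow, ← mul_div_assoc, le_div_iff₀ (pow_pos hx0 k), one_mul]
    exact this
  have h3 : (1 : ℝ) ≤ C * 0 := ge_of_tendsto' h1 h2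
  simp at h3
  linarith

section sub

/-- The objects which decompose over the list. -/
def FacProp (S : κ → D) : ObjectProperty D := fun Z => Fac S Z

variable (hS : IsSchur S)

lemma schur_sub (hS : IsSchur S) :
    IsSchur (fun i => (⟨S i, Fac.self i⟩ : (FacProp S).FullSubcategory)) where
  scalar := by
    intro i f
    obtain ⟨c, hc⟩ := hS.scalar i f.hom
    refine ⟨c, ?_⟩
    ext
    exact hc
  ne := by
    intro i h
    exact hS.ne i (congrArg (fun f => f.hom) h)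
  zero := by
    intro i j hij f
    ext
    exact hS.zero i j hij f.hom

lemma sum_hom {Q : ObjectProperty D} {X Y : Q.FullSubcategory} {ι : Type*} (s : Finset ι)
    (f : ι → (X ⟶ Y)) : (∑ c ∈ s, f c).hom = ∑ c ∈ s, (f c).hom :=
  Q.ι.map_sum f s

lemma dec_sub (hS : IsSchur S) (Z : (FacProp S).FullSubcategory) :
    Nonempty (Dec (fun i => (⟨S i, Fac.self i⟩ : (FacProp S).FullSubcategory)) Z) := by
  obtain ⟨d⟩ := Fac.dec hS Z.property
  refine ⟨⟨d.n, d.idx, fun b => ObjectProperty.homMk (d.inc b),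
    fun b => ObjectProperty.homMk (d.prj b), ?_, ?_, ?_⟩⟩
  · ext
    rw [sum_hom]
    exact d.sum
  · intro b
    ext
    exact d.same b
  · intro b b' h
    ext
    exact d.diff b b' h

/-- The sum object in the subcategory. -/
def sumObj_sub (Q : SumObj S) :
    SumObj (fun i => (⟨S i, Fac.self i⟩ : (FacProp S).FullSubcategory)) where
  P := ⟨Q.P, ⟨κ, inferInstance, id, Q.π, Q.ι, Q.h3⟩⟩
  π := fun i => ObjectProperty.homMk (Q.π i)
  ι := fun i => ObjectProperty.homMk (Q.ι i)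
  h1 := by
    intro i
    ext
    exact Q.h1 i
  h2 := by
    intro i j h
    ext
    exact Q.h2 i j h
  h3 := by
    ext
    rw [sum_hom]
    exact Q.h3

end sub

section character

variable {C : Type u} [Category.{v} C] [Preadditive C] [Linear ℂ C] [MonoidalCategory C]
  [MonoidalPreadditive C] [MonoidalLinear ℂ C] {S : κ → C}

lemma NM_tensor [hfd : ∀ X Y : C, FiniteDimensional ℂ (X ⟶ Y)] (hS : IsSchur S)
    (dec : ∀ Z, Dec S Z) (X Y : C) : NM S (X ⊗ Y) = NM S X * NM S Y := by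
  ext k j
  rw [Matrix.mul_apply]
  unfold NM
  rw [finrank_congr (α_ X Y (S j))]
  have := finrank_expand hfd hS (dec (Y ⊗ S j)) (tensorLeft X) (S k)
  have h2 : Module.finrank ℂ (S k ⟶ X ⊗ Y ⊗ S j) =
      ∑ i, Module.finrank ℂ (S i ⟶ Y ⊗ S j) * Module.finrank ℂ (S k ⟶ X ⊗ S i) := this
  rw [h2]
  push_cast
  exact Finset.sum_congr rfl fun l _ => mul_comm _ _

lemma NM_sum [hfd : ∀ X Y : C, FiniteDimensional ℂ (X ⟶ Y)] (hS : IsSchur S)
    (dec : ∀ Z, Dec S Z) (Z : C) :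
    NM S Z = ∑ i, (Module.finrank ℂ (S i ⟶ Z) : ℝ) • NM S (S i) := by
  ext k j
  rw [Matrix.sum_apply]
  unfold NM
  have := finrank_expand hfd hS (dec Z) (tensorRight (S j)) (S k)
  have h2 : Module.finrank ℂ (S k ⟶ Z ⊗ S j) =
      ∑ i, Module.finrank ℂ (S i ⟶ Z) * Module.finrank ℂ (S k ⟶ S i ⊗ S j) := this
  rw [h2]
  push_cast
  rfl

end character

/-- **Abstract theorem.** -/
theorem house_of_schur (P : D) [ExactPairing P P] (hS : IsSchur S)
    (hfac : ∀ k, Fac S (ppow P k)) (hocc : ∀ i, ∃ (k : ℕ) (f : S i ⟶ ppow P k), f ≠ 0)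
    (Q : SumObj S) (hunit : ∀ f : 𝟙_ D ⟶ 𝟙_ D, ∃ c : ℂ, f = c • 𝟙 _)
    (hne : 𝟙 (𝟙_ D) ≠ 0) {lam : ℝ} (dd : DimData P lam) : IsHouse lam := by
  -- retracts
  have hret : ∀ i, ∃ (k : ℕ) (s : S i ⟶ ppow P k) (t : ppow P k ⟶ S i), s ≫ t = 𝟙 _ := by
    intro i
    obtain ⟨k, f, hf⟩ := hocc i
    obtain ⟨d⟩ := Fac.dec hS (hfac k)
    obtain ⟨s, hs⟩ := exists_retract d hS f hf
    exact ⟨k, f, s, hs⟩
  -- closure under tensor products
  have hSS : ∀ i j, Fac S (S i ⊗ S j) := by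
    intro i j
    obtain ⟨k, s, t, hst⟩ := hret i
    obtain ⟨l, s', t', hst'⟩ := hret j
    obtain ⟨e⟩ := ppow_add P k l
    refine Fac.retract ((s ⊗ₘ s') ≫ e.hom) (e.inv ≫ (t ⊗ₘ t')) ?_ (hfac (k + l))
    simp [hst, hst']
  have hT : ∀ X Y : D, Fac S X → Fac S Y → Fac S (X ⊗ Y) := fun X Y hX hY =>
    Fac.tensor hSS hX hY
  have hmon : (FacProp S).IsMonoidal :=
    { prop_unit := hfac 0
      prop_tensor := hT }
  have hPfac : Fac S P := (hfac 1).iso (ρ_ P).symm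
  -- the subcategory
  let C := (FacProp S).FullSubcategory
  let S' : κ → C := fun i => ⟨S i, Fac.self i⟩
  have hS' : IsSchur S' := schur_sub hS
  have dec : ∀ Z : C, Dec S' Z := fun Z => (dec_sub hS Z).some
  have hfd : ∀ X Y : C, FiniteDimensional ℂ (X ⟶ Y) := fun X Y => finite_hom hS' (dec X) (dec Y)
  -- the unit
  obtain ⟨i0, ⟨e0⟩⟩ : ∃ i0, Nonempty (S i0 ≅ 𝟙_ D) := by
    obtain ⟨d⟩ := Fac.dec hS (hfac 0)
    change Dec S (𝟙_ D) at d
    have hn : ∃ b, d.prj b ≫ d.inc b ≠ 0 := by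
      by_contra hcon
      push Not at hcon
      apply hne
      rw [← d.sum]
      exact Finset.sum_eq_zero fun b _ => hcon b
    obtain ⟨b, hb⟩ := hn
    obtain ⟨c, hc⟩ := hunit (d.prj b ≫ d.inc b)
    have hc0 : c ≠ 0 := by
      rintro rfl
      exact hb (by rw [hc, zero_smul])
    refine ⟨d.idx b, ⟨⟨d.inc b, d.prj b, d.same b, ?_⟩⟩⟩
    have h2 : (d.prj b ≫ d.inc b) ≫ (d.prj b ≫ d.inc b) = d.prj b ≫ d.inc b := by
      rw [Category.assoc, ← Category.assoc (d.inc b), d.same, Category.id_comp]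
    rw [hc] at h2 ⊢
    rw [Linear.smul_comp, Category.id_comp, smul_smul] at h2
    have h3 : (c * c - c) • 𝟙 (𝟙_ D) = 0 := by rw [sub_smul, h2, sub_self]
    rcases smul_eq_zero.mp h3 with h4 | h4
    · have : c = 1 := by
        have h5 : c * (c - 1) = 0 := by linear_combination h4
        rcases mul_eq_zero.mp h5 with h6 | h6
        · exact absurd h6 hc0
        · linear_combination h6
      rw [this, one_smul]
    · exact absurd h4 hne
  have hκ : Nonempty κ := ⟨i0⟩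
  -- weak rigidity
  have hwr : ∀ i, ∃ (k : ℕ) (Y : D) (s : 𝟙_ D ⟶ S i ⊗ Y) (t : S i ⊗ Y ⟶ 𝟙_ D), Fac S Y ∧
      s ≫ t = 𝟙 _ ∧ (∀ {Z : D} {a : ℝ}, dd.rel Z a → dd.rel (Z ⊗ Y) (lam ^ k * a)) := by
    intro i
    obtain ⟨k, s, t, hst⟩ := hret i
    obtain ⟨Y, hY, hm, hd⟩ := move_right dd hT (hfac 0) hPfac k
    have ht : (λ_ (ppow P k)).hom ≫ t ≠ 0 := by
      intro h0
      apply hS.ne i
      rw [← hst]
      have : t = (λ_ (ppow P k)).inv ≫ (λ_ (ppow P k)).hom ≫ t := by simp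
      rw [this, h0]; simp
    obtain ⟨g, hg⟩ := hm _ _ _ ht
    have hg' : e0.hom ≫ g ≠ 0 := by
      intro h0
      apply hg
      have : g = e0.inv ≫ e0.hom ≫ g := by simp
      rw [this, h0, comp_zero]
    obtain ⟨d⟩ := Fac.dec hS (hT _ _ (Fac.self i) hY)
    obtain ⟨r, hr⟩ := exists_retract d hS (e0.hom ≫ g) hg'
    refine ⟨k, Y, g, r ≫ e0.hom, hY, ?_, hd⟩
    have : g = e0.inv ≫ (e0.hom ≫ g) := by simp
    rw [this, Category.assoc, ← Category.assoc (e0.hom ≫ g) r, hr, Category.id_comp,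
      e0.inv_hom_id]
  have hWR : WeakRigid S' := by
    intro i
    obtain ⟨k, Y, s, t, hY, hst, _⟩ := hwr i
    refine ⟨⟨Y, hY⟩, ObjectProperty.homMk s, ObjectProperty.homMk t, ?_⟩
    ext
    exact hst
  obtain ⟨w, d, hw, hd, hdpos⟩ := exists_pf dec hS' hWR
  -- the character
  have hdmul : ∀ X Y : C, d (X ⊗ Y) = d X * d Y := by
    intro X Y
    have h1 := hd (X ⊗ Y)
    rw [NM_tensor hS' dec, ← Matrix.mulVec_mulVec, hd Y, Matrix.mulVec_smul, hd X] at h1
    have h2 := congrFun h1 i0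
    simp only [Pi.smul_apply, smul_eq_mul] at h2
    have h3 : (d (X ⊗ Y) - d X * d Y) * w i0 = 0 := by linear_combination -h2
    rcases mul_eq_zero.mp h3 with h4 | h4
    · linarith
    · exact absurd h4 (hw i0).ne'
  have hdsum : ∀ Z : C, d Z = ∑ i, (Module.finrank ℂ (S' i ⟶ Z) : ℝ) * d (S' i) := by
    intro Z
    have h1 := hd Z
    rw [NM_sum hS' dec Z] at h1
    have h2 := congrFun h1 i0
    rw [Matrix.sum_mulVec] at h2
    simp only [Finset.sum_apply, Matrix.smul_mulVec, Pi.smul_apply, smul_eq_mul] at h2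
    have h3 : ∀ i, ((NM S' (S' i)).mulVec w) i0 = d (S' i) * w i0 := fun i => congrFun (hd _) i0
    simp_rw [h3] at h2
    have h4 : (d Z - ∑ i, (Module.finrank ℂ (S' i ⟶ Z) : ℝ) * d (S' i)) * w i0 = 0 := by
      rw [sub_mul, ← h2, Finset.sum_mul, sub_eq_zero]
      exact Finset.sum_congr rfl fun i _ => by ring
    rcases mul_eq_zero.mp h4 with h5 | h5
    · linarith
    · exact absurd h5 (hw i0).ne'
  -- the dimension
  have hrelpow : ∀ k, dd.rel (ppow P k) (lam ^ k) := by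
    intro k
    have := dd.tens_pow k dd.unit
    rw [mul_one] at this
    exact dd.iso (λ_ _).symm this
  have hex : ∀ i, ∃ a, dd.rel (S i) a := by
    intro i
    obtain ⟨k, s, t, hst⟩ := hret i
    exact dd.retract s t hst (hrelpow k)
  choose a ha using hex
  have ha0 : ∀ i, 0 ≤ a i := fun i => dd.nonneg (ha i)
  have hrel : ∀ Z : C, dd.rel Z.obj (∑ i, (Module.finrank ℂ (S' i ⟶ Z) : ℝ) * a i) := by
    intro Z
    have hsum := sum_dec hfd hS' (dec Z) a
    simp only [nsmul_eq_mul] at hsum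
    rw [← hsum]
    refine dd.add (fun b => S ((dec Z).idx b)) (fun b => ((dec Z).inc b).hom)
      (fun b => ((dec Z).prj b).hom) ?_ ?_ ?_ _ (fun b => ha _)
    · have := congrArg (fun f => f.hom) (dec Z).sum
      rw [sum_hom] at this
      exact this
    · intro b
      exact congrArg (fun f => f.hom) ((dec Z).same b)
    · intro b b' h
      exact congrArg (fun f => f.hom) ((dec Z).diff b b' h)
  -- positivity
  have hone : ∀ Z : C, (∃ (s : 𝟙_ C ⟶ Z) (t : Z ⟶ 𝟙_ C), s ≫ t = 𝟙 _) →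
      ∀ x, dd.rel Z.obj x → 1 ≤ x := by
    rintro Z ⟨s, t, hst⟩ x hx
    have h1 : x = ∑ i, (Module.finrank ℂ (S' i ⟶ Z) : ℝ) * a i := dd.unique hx (hrel Z)
    have h2 : a i0 = 1 := dd.unique (ha i0) (dd.iso e0 dd.unit)
    have h3 : 1 ≤ Module.finrank ℂ (S' i0 ⟶ Z) := by
      rw [Nat.one_le_iff_ne_zero, ← Nat.pos_iff_ne_zero, Module.finrank_pos_iff_exists_ne_zero]
      have e1 : S' i0 ≅ 𝟙_ C := (FacProp S).isoMk e0
      refine ⟨e1.hom ≫ s, ?_⟩
      intro h0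
      apply hS'.ne i0
      have : 𝟙 (S' i0) = (e1.hom ≫ s) ≫ t ≫ e1.inv := by
        rw [Category.assoc, ← Category.assoc s, hst]; simp
      rw [this, h0, zero_comp]
    rw [h1]
    have h4 : (Module.finrank ℂ (S' i0 ⟶ Z) : ℝ) * a i0 ≤
        ∑ i, (Module.finrank ℂ (S' i ⟶ Z) : ℝ) * a i :=
      Finset.single_le_sum (f := fun i => (Module.finrank ℂ (S' i ⟶ Z) : ℝ) * a i)
        (fun i _ => mul_nonneg (Nat.cast_nonneg _) (ha0 i)) (Finset.mem_univ i0)
    rw [h2, mul_one] at h4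
    have h5 : (1 : ℝ) ≤ (Module.finrank ℂ (S' i0 ⟶ Z) : ℝ) := by exact_mod_cast h3
    linarith
  have hapos : ∀ i, 0 < a i := by
    intro i
    rcases (ha0 i).lt_or_eq with h | h
    · exact h
    · exfalso
      obtain ⟨k, Y, s, t, hY, hst, hY2⟩ := hwr i
      have h1 := hY2 (ha i)
      rw [← h, mul_zero] at h1
      have h2 := hone ⟨S i ⊗ Y, hT _ _ (Fac.self i) hY⟩
        ⟨ObjectProperty.homMk s, ObjectProperty.homMk t, by ext; exact hst⟩ 0 h1
      linarith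
  -- comparison
  have hlam0 : 0 ≤ lam := by
    have := dd.nonneg (hrelpow 1)
    rwa [pow_one] at this
  let pw : ℕ → C := fun k => ⟨ppow P k, hfac k⟩
  let P' : C := ⟨P, hPfac⟩
  have hdP0 : 0 ≤ d P' := by
    rw [hdsum]
    exact Finset.sum_nonneg fun i _ => mul_nonneg (Nat.cast_nonneg _) (hdpos i).le
  have hd1 : 0 < d (𝟙_ C) := by
    have h1 := hdmul (𝟙_ C) (S' i0)
    have h2 : d (𝟙_ C ⊗ S' i0) = d (S' i0) := by
      have h3 : NM S' (𝟙_ C ⊗ S' i0) = NM S' (S' i0) := by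
        ext k j
        unfold NM
        rw [finrank_congr (whiskerRightIso (λ_ (S' i0)) (S' j))]
      have h4 := hd (𝟙_ C ⊗ S' i0)
      rw [h3, hd] at h4
      have h5 := congrFun h4 i0
      simp only [Pi.smul_apply, smul_eq_mul] at h5
      exact (mul_right_cancel₀ (hw i0).ne' h5).symm
    rw [h2] at h1
    have h6 := hdpos i0
    nlinarith [hdpos i0]
  have hdpow : ∀ k, d (pw k) = d P' ^ k * d (𝟙_ C) := by
    intro k
    induction k with
    | zero =>
      rw [pow_zero, one_mul]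
      rfl
    | succ k ih =>
      have : pw (k + 1) = P' ⊗ pw k := rfl
      rw [this, hdmul, ih]
      ring
  have hdone : d (𝟙_ C) = 1 := by
    have h1 := hdmul (𝟙_ C) (𝟙_ C)
    have h2 : d (𝟙_ C ⊗ 𝟙_ C) = d (𝟙_ C) := by
      have h3 : NM S' (𝟙_ C ⊗ 𝟙_ C) = NM S' (𝟙_ C) := by
        ext k j
        unfold NM
        rw [finrank_congr (whiskerRightIso (λ_ (𝟙_ C)) (S' j))]
      have h4 := hd (𝟙_ C ⊗ 𝟙_ C)
      rw [h3, hd] at h4
      have h5 := congrFun h4 i0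
      simp only [Pi.smul_apply, smul_eq_mul] at h5
      exact (mul_right_cancel₀ (hw i0).ne' h5).symm
    rw [h2] at h1
    have h3 : d (𝟙_ C) * (d (𝟙_ C) - 1) = 0 := by linear_combination -h1
    rcases mul_eq_zero.mp h3 with h4 | h4
    · exact absurd h4 hd1.ne'
    · linarith
  have hlampow : ∀ k, lam ^ k = ∑ i, (Module.finrank ℂ (S' i ⟶ pw k) : ℝ) * a i := fun k =>
    dd.unique (hrelpow k) (hrel (pw k))
  have hdpow' : ∀ k, d P' ^ k = ∑ i, (Module.finrank ℂ (S' i ⟶ pw k) : ℝ) * d (S' i) := by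
    intro k
    rw [← hdsum, hdpow, hdone, mul_one]
  obtain ⟨C1, hC1⟩ : ∃ C1 : ℝ, ∀ i, a i ≤ C1 * d (S' i) := by
    refine ⟨∑ j, a j / d (S' j), fun i => ?_⟩
    have h1 : a i / d (S' i) ≤ ∑ j, a j / d (S' j) :=
      Finset.single_le_sum (f := fun j => a j / d (S' j))
        (fun j _ => div_nonneg (ha0 j) (hdpos j).le) (Finset.mem_univ i)
    rwa [div_le_iff₀ (hdpos i)] at h1
  obtain ⟨C2, hC2⟩ : ∃ C2 : ℝ, ∀ i, d (S' i) ≤ C2 * a i := by
    refine ⟨∑ j, d (S' j) / a j, fun i => ?_⟩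
    have h1 : d (S' i) / a i ≤ ∑ j, d (S' j) / a j :=
      Finset.single_le_sum (f := fun j => d (S' j) / a j)
        (fun j _ => div_nonneg (hdpos j).le (ha0 j)) (Finset.mem_univ i)
    rwa [div_le_iff₀ (hapos i)] at h1
  have hle1 : lam ≤ d P' := by
    refine le_of_pow_le hlam0 hdP0 (C := C1) fun k => ?_
    rw [hlampow, hdpow', Finset.mul_sum]
    refine Finset.sum_le_sum fun i _ => ?_
    have := mul_le_mul_of_nonneg_left (hC1 i)
      (Nat.cast_nonneg (α := ℝ) (Module.finrank ℂ (S' i ⟶ pw k)))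
    linarith
  have hle2 : d P' ≤ lam := by
    refine le_of_pow_le hdP0 hlam0 (C := C2) fun k => ?_
    rw [hlampow, hdpow', Finset.mul_sum]
    refine Finset.sum_le_sum fun i _ => ?_
    have := mul_le_mul_of_nonneg_left (hC2 i)
      (Nat.cast_nonneg (α := ℝ) (Module.finrank ℂ (S' i ⟶ pw k)))
    linarith
  have hlam : lam = d P' := le_antisymm hle1 hle2
  rw [hlam]
  refine isHouse_of_pf (fusionMatrix S' P') _ (pf_of_vec P' w hw (d P') (hd P')) ?_
  exact eig_cyclotomic hS' dec (sumObj_sub Q) w d hw hd hdpos P'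

end Pool.Agent.H60R2.SF
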