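import Pool.Agent.H60R2.SF.Dim

/-!
The algebraic main theorem: the index of a finite depth extension with trivial center and a
positive trace is the house of a cyclotomic integer.
-/

set_option autoImplicit false
set_option linter.unusedSectionVars false

open CategoryTheory CategoryTheory.Limits MonoidalCategory MulOpposite TensorProduct

namespace Pool.Agent.H60R2.SF

open Pool.Agent.Helper781.CycHouse (IsHouse)

universe u

variable {R A : Type u} [Ring R] [Algebra ℂ R] [Ring A] [Algebra ℂ A]

attribute [local instance] endofunctorMonoidalCategory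

/-- Direct sum of bimodules. -/
def Bimod.pi {κ : Type} (X : κ → Bimod R) : Bimod R where
  carrier := ∀ i, (X i).carrier
  l a x := fun i => (X i).l a (x i)
  r a x := fun i => (X i).r a (x i)
  l_add a x y := funext fun i => (X i).l_add a (x i) (y i)
  r_add a x y := funext fun i => (X i).r_add a (x i) (y i)
  add_l a b x := funext fun i => (X i).add_l a b (x i)
  add_r a b x := funext fun i => (X i).add_r a b (x i)
  smul_l c a x := funext fun i => (X i).smul_l c a (x i)
  smul_r c a x := funext fun i => (X i).smul_r c a (x i)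
  one_l x := funext fun i => (X i).one_l (x i)
  one_r x := funext fun i => (X i).one_r (x i)
  mul_l a b x := funext fun i => (X i).mul_l a b (x i)
  mul_r a b x := funext fun i => (X i).mul_r a b (x i)
  comm a b x := funext fun i => (X i).comm a b (x i)

/-- The direct sum of the functors. -/
noncomputable def sumFX {κ : Type} [Fintype κ] [DecidableEq κ] (X : κ → Bimod R) :
    SumObj (fun i => FX (X i)) where
  P := FX (Bimod.pi X)
  π := fun i => Fmap (X := X i) (Y := Bimod.pi X)
    (LinearMap.single ℂ (fun i => (X i).carrier) i) (by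
      refine ⟨fun a x => ?_, fun a x => ?_⟩
      · funext j
        change (Pi.single i ((X i).l a x) : ∀ i, (X i).carrier) j =
          (X j).l a ((Pi.single i x : ∀ i, (X i).carrier) j)
        by_cases hb : j = i
        · subst hb; simp
        · rw [Pi.single_eq_of_ne hb, Pi.single_eq_of_ne hb, Bimod.l_zero]
      · funext j
        change (Pi.single i ((X i).r a x) : ∀ i, (X i).carrier) j =
          (X j).r a ((Pi.single i x : ∀ i, (X i).carrier) j)
        by_cases hb : j = i
        · subst hb; simp
        · rw [Pi.single_eq_of_ne hb, Pi.single_eq_of_ne hb, Bimod.r_zero])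
  ι := fun i => Fmap (X := Bimod.pi X) (Y := X i) (LinearMap.proj i)
    ⟨fun a x => rfl, fun a x => rfl⟩
  h1 := by
    intro i
    apply LinEnd.ext_app
    intro Z
    ext f
    refine LHom.ext fun x => ?_
    change LHom.ap (X := X i) (Z := Z) f ((Pi.single i x : ∀ i, (X i).carrier) i) =
      LHom.ap (X := X i) (Z := Z) f x
    rw [Pi.single_eq_same]
  h2 := by
    intro i j hij
    apply LinEnd.ext_app
    intro Z
    ext f
    refine LHom.ext fun x => ?_
    change LHom.ap (X := X i) (Z := Z) f ((Pi.single j x : ∀ i, (X i).carrier) i) = 0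
    rw [Pi.single_eq_of_ne hij]
    exact LHom.ap_zero (X := X i) (Z := Z) f
  h3 := by
    apply LinEnd.ext_app
    intro Z
    ext f
    rw [sum_app]
    refine LHom.ext fun x => ?_
    refine (LHom.sum_ap (X := Bimod.pi X) (Z := Z) _ _ x).trans ?_
    change ∑ b, LHom.ap (X := Bimod.pi X) (Z := Z) f (Pi.single b (x b)) =
      LHom.ap (X := Bimod.pi X) (Z := Z) f x
    refine (LHom.ap_sum (X := Bimod.pi X) (Z := Z) f _ _).symm.trans ?_
    congr 1
    exact Finset.univ_sum_single x

/-- Restricting a factorisation to the members of the list which occur. -/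
lemma Fac.restrict {D : Type*} [Category D] [Preadditive D] {κ : Type} {S : κ → D}
    (p : κ → Prop) {Y : D} (h : Fac S Y) (hp : ∀ i (f : S i ⟶ Y), f ≠ 0 → p i) :
    Fac (fun i : {i // p i} => S i.1) Y := by
  classical
  obtain ⟨ι, _, idx, g, f, hs⟩ := h
  refine ⟨{c : ι // f c ≠ 0}, inferInstance, fun c => ⟨idx c.1, hp _ (f c.1) c.2⟩,
    fun c => g c.1, fun c => f c.1, ?_⟩
  rw [← hs]
  have h1 : ∑ c, g c ≫ f c = ∑ c ∈ Finset.univ.filter (fun c => f c ≠ 0), g c ≫ f c := by
    symm
    apply Finset.sum_filter_of_ne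
    intro c _ hc h0
    exact hc (by rw [h0, comp_zero])
  rw [h1]
  exact (Finset.sum_subtype (Finset.univ.filter (fun c => f c ≠ 0)) (by simp)
    (fun c => g c ≫ f c)).symm

/-- **Algebraic main theorem.** -/
theorem house_of_ext {φ : R →ₐ[ℂ] A} {lam : ℝ} (q : TD φ lam) [Nontrivial R]
    (hc : ∀ z : R, (∀ x, z * x = x * z) → ∃ c : ℂ, z = algebraMap ℂ R c)
    (hfd : FiniteDepth φ) : IsHouse lam := by
  classical
  obtain ⟨m, X, h1, h2, h3⟩ := hfd
  have hS0 : IsSchur (fun i => FX (X i)) := schur_FX X h1 h2
  let p : Fin m → Prop := fun i => ∃ (k : ℕ) (f : FX (X i) ⟶ ppow (FX (extB φ)) k), f ≠ 0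
  let S : {i // p i} → LinEnd R := fun i => FX (X i.1)
  have hS : IsSchur S :=
    { scalar := fun i f => hS0.scalar i.1 f
      ne := fun i => hS0.ne i.1
      zero := fun i j hij f => hS0.zero i.1 j.1 (fun h => hij (Subtype.ext h)) f }
  have hfac : ∀ k, Fac S (ppow (FX (extB φ)) k) := by
    intro k
    obtain ⟨n, idx, hd⟩ := h3 k
    obtain ⟨e⟩ := powIso φ k
    have hf := (fac_FX X (Bimod.pow φ k) idx hd).iso e.symm
    exact hf.restrict p (fun i f hf0 => ⟨k, f, hf0⟩)
  letI : ExactPairing (FX (extB φ)) (FX (extB φ)) := q.toQB.exact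
  exact house_of_schur (FX (extB φ)) hS hfac (fun i => i.2) (sumFX (fun i : {i // p i} => X i.1))
    (end_unit hc) unit_ne q.dimData

end Pool.Agent.H60R2.SF
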