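import Mathlib

/-!
Bimodules over a complex algebra, the relative tensor product with an extension, tensor powers and
finite depth.
-/

set_option autoImplicit false

open TensorProduct MulOpposite

namespace Pool.Agent.H60R2.SF

universe u

/-- A bimodule over the complex algebra `R`: a complex vector space with commuting left and right
actions of `R`, linear in both variables; `l a x` is `a x` and `r b x` is `x b`. -/
structure Bimod (R : Type u) [Ring R] [Algebra ℂ R] where
  /-- the underlying vector space -/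
  carrier : Type u
  [addCommGroup : AddCommGroup carrier]
  [module : Module ℂ carrier]
  /-- the left action -/
  l : R → carrier → carrier
  /-- the right action -/
  r : R → carrier → carrier
  l_add : ∀ a x y, l a (x + y) = l a x + l a y
  r_add : ∀ a x y, r a (x + y) = r a x + r a y
  add_l : ∀ a b x, l (a + b) x = l a x + l b x
  add_r : ∀ a b x, r (a + b) x = r a x + r b x
  smul_l : ∀ (c : ℂ) a x, l (c • a) x = c • l a x
  smul_r : ∀ (c : ℂ) a x, r (c • a) x = c • r a x
  one_l : ∀ x, l 1 x = x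
  one_r : ∀ x, r 1 x = x
  mul_l : ∀ a b x, l (a * b) x = l a (l b x)
  mul_r : ∀ a b x, r (a * b) x = r b (r a x)
  comm : ∀ a b x, l a (r b x) = r b (l a x)

attribute [instance] Bimod.addCommGroup Bimod.module

variable {R A : Type u} [Ring R] [Algebra ℂ R] [Ring A] [Algebra ℂ A]

namespace Bimod

lemma algebraMap_l (X : Bimod R) (c : ℂ) (x : X.carrier) : X.l (algebraMap ℂ R c) x = c • x := by
  rw [Algebra.algebraMap_eq_smul_one, X.smul_l, X.one_l]

lemma algebraMap_r (X : Bimod R) (c : ℂ) (x : X.carrier) : X.r (algebraMap ℂ R c) x = c • x := by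
  rw [Algebra.algebraMap_eq_smul_one, X.smul_r, X.one_r]

lemma l_smul (X : Bimod R) (a : R) (c : ℂ) (x : X.carrier) : X.l a (c • x) = c • X.l a x := by
  rw [← X.algebraMap_l, ← X.mul_l, ← Algebra.commutes, X.mul_l, X.algebraMap_l]

lemma r_smul (X : Bimod R) (a : R) (c : ℂ) (x : X.carrier) : X.r a (c • x) = c • X.r a x := by
  rw [← X.algebraMap_r, ← X.mul_r, Algebra.commutes, X.mul_r, X.algebraMap_r]

lemma l_zero (X : Bimod R) (a : R) : X.l a 0 = 0 := by
  have := X.l_add a 0 0
  rw [add_zero] at this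
  exact left_eq_add.mp this

lemma r_zero (X : Bimod R) (a : R) : X.r a 0 = 0 := by
  have := X.r_add a 0 0
  rw [add_zero] at this
  exact left_eq_add.mp this

lemma zero_l (X : Bimod R) (x : X.carrier) : X.l 0 x = 0 := by
  have := X.add_l 0 0 x
  rw [add_zero] at this
  exact left_eq_add.mp this

lemma zero_r (X : Bimod R) (x : X.carrier) : X.r 0 x = 0 := by
  have := X.add_r 0 0 x
  rw [add_zero] at this
  exact left_eq_add.mp this

/-- The linear map `f : X → Y` is a map of bimodules. -/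
def IsHom (X Y : Bimod R) (f : X.carrier →ₗ[ℂ] Y.carrier) : Prop :=
  (∀ a x, f (X.l a x) = Y.l a (f x)) ∧ ∀ a x, f (X.r a x) = Y.r a (f x)

/-- The algebra `R` as a bimodule over itself. -/
def self (R : Type u) [Ring R] [Algebra ℂ R] : Bimod R where
  carrier := R
  l a x := a * x
  r a x := x * a
  l_add := mul_add
  r_add a x y := add_mul x y a
  add_l := add_mul
  add_r a b x := mul_add x a b
  smul_l := smul_mul_assoc
  smul_r c a x := mul_smul_comm c x a
  one_l := one_mul
  one_r := mul_one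
  mul_l := mul_assoc
  mul_r a b x := (mul_assoc x a b).symm
  comm a b x := (mul_assoc a x b).symm

/-- The relations defining `A ⊗_R X`: the span of the `(a s) ⊗ x - a ⊗ (s x)`. -/
def rel (φ : R →ₐ[ℂ] A) (X : Bimod R) : Submodule ℂ (A ⊗[ℂ] X.carrier) :=
  Submodule.span ℂ {z | ∃ (a : A) (s : R) (x : X.carrier),
    z = (a * φ s) ⊗ₜ[ℂ] x - a ⊗ₜ[ℂ] (X.l s x)}

/-- The vector space `A ⊗_R X`. -/
def TC (φ : R →ₐ[ℂ] A) (X : Bimod R) : Type u := (A ⊗[ℂ] X.carrier) ⧸ rel φ X

instance (φ : R →ₐ[ℂ] A) (X : Bimod R) : AddCommGroup (TC φ X) :=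
  Submodule.Quotient.addCommGroup (rel φ X)

instance (φ : R →ₐ[ℂ] A) (X : Bimod R) : Module ℂ (TC φ X) :=
  Submodule.Quotient.module (rel φ X)

/-- The class of `a ⊗ x` in `A ⊗_R X`. -/
def tmk (φ : R →ₐ[ℂ] A) (X : Bimod R) (a : A) (x : X.carrier) : TC φ X :=
  Submodule.Quotient.mk (p := rel φ X) (a ⊗ₜ[ℂ] x)

/-- The right action as a linear map. -/
def rLin (X : Bimod R) (b : R) : X.carrier →ₗ[ℂ] X.carrier where
  toFun := X.r b
  map_add' := X.r_add b
  map_smul' := X.r_smul b

lemma rel_left (φ : R →ₐ[ℂ] A) (X : Bimod R) (c : A) :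
    rel φ X ≤ (rel φ X).comap (TensorProduct.map (LinearMap.mulLeft ℂ c) LinearMap.id) := by
  rw [rel, Submodule.span_le]
  rintro _ ⟨a, s, x, rfl⟩
  refine Submodule.subset_span ⟨c * a, s, x, ?_⟩
  simp [mul_assoc]

lemma rel_right (φ : R →ₐ[ℂ] A) (X : Bimod R) (b : R) :
    rel φ X ≤ (rel φ X).comap (TensorProduct.map LinearMap.id (X.rLin b)) := by
  rw [rel, Submodule.span_le]
  rintro _ ⟨a, s, x, rfl⟩
  refine Submodule.subset_span ⟨a, s, X.r b x, ?_⟩
  rw [map_sub, TensorProduct.map_tmul, TensorProduct.map_tmul]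
  change (a * φ s) ⊗ₜ[ℂ] X.r b x - a ⊗ₜ[ℂ] (X.r b (X.l s x)) = _
  rw [X.comm]

/-- The left action on `A ⊗_R X`: `s (a ⊗ x) = (s a) ⊗ x`. -/
def tl (φ : R →ₐ[ℂ] A) (X : Bimod R) (s : R) : TC φ X →ₗ[ℂ] TC φ X :=
  (rel φ X).mapQ (rel φ X) (TensorProduct.map (LinearMap.mulLeft ℂ (φ s)) LinearMap.id)
    (rel_left φ X (φ s))

/-- The right action on `A ⊗_R X`: `(a ⊗ x) b = a ⊗ (x b)`. -/
def tr (φ : R →ₐ[ℂ] A) (X : Bimod R) (b : R) : TC φ X →ₗ[ℂ] TC φ X :=
  (rel φ X).mapQ (rel φ X) (TensorProduct.map LinearMap.id (X.rLin b)) (rel_right φ X b)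

section

variable (φ : R →ₐ[ℂ] A) (X : Bimod R)

lemma tmk_add_left (a b : A) (x : X.carrier) : tmk φ X (a + b) x = tmk φ X a x + tmk φ X b x := by
  unfold tmk
  rw [TensorProduct.add_tmul]; rfl

lemma tmk_add_right (a : A) (x y : X.carrier) :
    tmk φ X a (x + y) = tmk φ X a x + tmk φ X a y := by
  unfold tmk
  rw [TensorProduct.tmul_add]; rfl

lemma tmk_smul_left (c : ℂ) (a : A) (x : X.carrier) :
    tmk φ X (c • a) x = c • tmk φ X a x := by
  unfold tmk
  rw [← TensorProduct.smul_tmul']; rfl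

lemma tmk_smul_right (c : ℂ) (a : A) (x : X.carrier) :
    tmk φ X a (c • x) = c • tmk φ X a x := by
  unfold tmk
  rw [TensorProduct.tmul_smul]; rfl

lemma tmk_bal (a : A) (s : R) (x : X.carrier) : tmk φ X (a * φ s) x = tmk φ X a (X.l s x) :=
  (Submodule.Quotient.eq (rel φ X)).mpr (Submodule.subset_span ⟨a, s, x, rfl⟩)

lemma tl_tmk (s : R) (a : A) (x : X.carrier) :
    tl φ X s (tmk φ X a x) = tmk φ X (φ s * a) x := rfl

lemma tr_tmk (s : R) (a : A) (x : X.carrier) :
    tr φ X s (tmk φ X a x) = tmk φ X a (X.r s x) := rfl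

lemma tens_induction {p : TC φ X → Prop} (h0 : p 0)
    (h1 : ∀ a x, p (tmk φ X a x)) (h2 : ∀ y z, p y → p z → p (y + z)) (z) : p z := by
  obtain ⟨z, rfl⟩ := Submodule.Quotient.mk_surjective _ z
  induction z using TensorProduct.induction_on with
  | zero => exact h0
  | tmul a x => exact h1 a x
  | add y z hy hz => exact h2 _ _ hy hz

lemma TC_ext {f g : TC φ X →ₗ[ℂ] TC φ X} (h : ∀ a x, f (tmk φ X a x) = g (tmk φ X a x)) :
    f = g := by
  refine LinearMap.ext fun z => ?_
  refine tens_induction φ X (p := fun z => f z = g z) ?_ h ?_ z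
  · rw [map_zero, map_zero]
  · intro y z hy hz
    rw [map_add, map_add, hy, hz]

lemma tl_add (a b : R) (x : TC φ X) : tl φ X (a + b) x = tl φ X a x + tl φ X b x := by
  have : tl φ X (a + b) = tl φ X a + tl φ X b := TC_ext φ X fun c y => by
    rw [LinearMap.add_apply, tl_tmk, tl_tmk, tl_tmk, map_add, add_mul, tmk_add_left]
  rw [this, LinearMap.add_apply]

lemma tr_add (a b : R) (x : TC φ X) : tr φ X (a + b) x = tr φ X a x + tr φ X b x := by
  have : tr φ X (a + b) = tr φ X a + tr φ X b := TC_ext φ X fun c y => by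
    rw [LinearMap.add_apply, tr_tmk, tr_tmk, tr_tmk, X.add_r, tmk_add_right]
  rw [this, LinearMap.add_apply]

lemma tl_smul (c : ℂ) (a : R) (x : TC φ X) : tl φ X (c • a) x = c • tl φ X a x := by
  have : tl φ X (c • a) = c • tl φ X a := TC_ext φ X fun b y => by
    rw [LinearMap.smul_apply, tl_tmk, tl_tmk, map_smul, smul_mul_assoc, tmk_smul_left]
  rw [this, LinearMap.smul_apply]

lemma tr_smul (c : ℂ) (a : R) (x : TC φ X) : tr φ X (c • a) x = c • tr φ X a x := by
  have : tr φ X (c • a) = c • tr φ X a := TC_ext φ X fun b y => by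
    rw [LinearMap.smul_apply, tr_tmk, tr_tmk, X.smul_r, tmk_smul_right]
  rw [this, LinearMap.smul_apply]

lemma tl_one (x : TC φ X) : tl φ X 1 x = x := by
  have : tl φ X 1 = LinearMap.id := TC_ext φ X fun b y => by
    rw [tl_tmk, map_one, one_mul]; rfl
  rw [this]; rfl

lemma tr_one (x : TC φ X) : tr φ X 1 x = x := by
  have : tr φ X 1 = LinearMap.id := TC_ext φ X fun b y => by
    rw [tr_tmk, X.one_r]; rfl
  rw [this]; rfl

lemma tl_mul (a b : R) (x : TC φ X) : tl φ X (a * b) x = tl φ X a (tl φ X b x) := by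
  have : tl φ X (a * b) = tl φ X a ∘ₗ tl φ X b := TC_ext φ X fun c y => by
    rw [LinearMap.comp_apply, tl_tmk, tl_tmk, tl_tmk, map_mul, mul_assoc]
  rw [this, LinearMap.comp_apply]

lemma tr_mul (a b : R) (x : TC φ X) : tr φ X (a * b) x = tr φ X b (tr φ X a x) := by
  have : tr φ X (a * b) = tr φ X b ∘ₗ tr φ X a := TC_ext φ X fun c y => by
    rw [LinearMap.comp_apply, tr_tmk, tr_tmk, tr_tmk, X.mul_r]
  rw [this, LinearMap.comp_apply]

lemma tl_tr (a b : R) (x : TC φ X) : tl φ X a (tr φ X b x) = tr φ X b (tl φ X a x) := by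
  have : tl φ X a ∘ₗ tr φ X b = tr φ X b ∘ₗ tl φ X a := TC_ext φ X fun c y => by
    rw [LinearMap.comp_apply, LinearMap.comp_apply, tl_tmk, tr_tmk, tl_tmk, tr_tmk]
  exact LinearMap.congr_fun this x

end

/-- The relative tensor product `A ⊗_R X` of the algebra `A`, a right `R`-module through
`φ : R → A`, with the bimodule `X`. The left action of `R` is that on `A` through `φ`, the right
action is that on `X`. -/
def tens (φ : R →ₐ[ℂ] A) (X : Bimod R) : Bimod R where
  carrier := TC φ X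
  l s x := tl φ X s x
  r s x := tr φ X s x
  l_add s := (tl φ X s).map_add
  r_add s := (tr φ X s).map_add
  add_l := tl_add φ X
  add_r := tr_add φ X
  smul_l := tl_smul φ X
  smul_r := tr_smul φ X
  one_l := tl_one φ X
  one_r := tr_one φ X
  mul_l := tl_mul φ X
  mul_r := tr_mul φ X
  comm := tl_tr φ X

/-- The tensor power `A ⊗_R A ⊗_R ⋯ ⊗_R A` with `k` factors (`R` for `k = 0`). -/
def pow (φ : R →ₐ[ℂ] A) : ℕ → Bimod R
  | 0 => self R
  | k + 1 => tens φ (pow φ k)

/-- The bimodule `T` is isomorphic to the direct sum of the bimodules `Y b`, `b < n`: there is a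
linear bijection from `T` onto the product whose components are bimodule maps. -/
def IsDirectSum (T : Bimod R) {n : ℕ} (Y : Fin n → Bimod R) : Prop :=
  ∃ f : ∀ b, T.carrier →ₗ[ℂ] (Y b).carrier, (∀ b, IsHom T (Y b) (f b)) ∧
    Function.Bijective fun x b => f b x

/-- The bimodule `X` is irreducible: it is nonzero and every bimodule map from `X` to itself is a
scalar. -/
def IsIrreducible (X : Bimod R) : Prop :=
  (∃ x : X.carrier, x ≠ 0) ∧ ∀ f, IsHom X X f → ∃ c : ℂ, ∀ x, f x = c • x

end Bimod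

/-- The extension `φ : R → A` has finite depth: there are finitely many irreducible bimodules over
`R`, without nonzero bimodule maps between two different ones, such that every tensor power
`A ⊗_R A ⊗_R ⋯ ⊗_R A` is isomorphic to a finite direct sum of copies of them. -/
def FiniteDepth (φ : R →ₐ[ℂ] A) : Prop :=
  ∃ (m : ℕ) (X : Fin m → Bimod R), (∀ i, (X i).IsIrreducible) ∧
    (∀ i j, i ≠ j → ∀ f, Bimod.IsHom (X i) (X j) f → f = 0) ∧
    ∀ k, ∃ (n : ℕ) (idx : Fin n → Fin m), (Bimod.pow φ k).IsDirectSum (fun b => X (idx b))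

end Pool.Agent.H60R2.SF
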