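import Pool.Agent.H60R2.SF.Schur
import Pool.Agent.Helper781.Fusion.Cyclotomic

/-!
Frobenius-Perron eigenvalues in semisimple tensor categories given by a Schur list are cyclotomic.
This adapts `Pool.Agent.Helper781.Fusion.{Tensor, PFEig, Cyclotomic}` from abelian rigid
categories to preadditive ones with a weak rigidity condition.
-/

set_option autoImplicit false
set_option linter.unusedSectionVars false

open CategoryTheory CategoryTheory.Limits MonoidalCategory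

namespace Pool.Agent.H60R2.SF

open Pool.Agent.Helper781.Fusion (BaseData PathData pf_common pf_bound IsPFEigenvalue rot
  idem_of_mul rot_pow trace_mem recur_mem in_cyc Kcyc)

universe v u

section monoidal

variable {C : Type u} [Category.{v} C] [Preadditive C] [Linear ℂ C] [MonoidalCategory C]
  [MonoidalPreadditive C] [MonoidalLinear ℂ C]

/-- The associator as a commutation isomorphism. -/
def cU (V U : C) : tensorLeft V ⋙ tensorRight U ≅ tensorRight U ⋙ tensorLeft V :=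
  NatIso.ofComponents (fun X => α_ V X U) (by
    intro X Y f
    simp)

lemma cU_hom_app (V U X : C) : (cU V U).hom.app X = (α_ V X U).hom := rfl

variable {κ : Type} [Fintype κ] [DecidableEq κ] {S : κ → C} {P V : C} {B : BaseData P κ}
  {E : Type} [Fintype E] [DecidableEq E] (p : PathData B (tensorLeft V) E)

/-- Transfer matrix of an object. -/
noncomputable def TU (U : C) (n : ℕ) : Matrix (Fin (n + 1) → E) (Fin (n + 1) → E) ℂ :=
  p.T (tensorRight U) (cU V U) n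

lemma TU_mul [∀ X Y : C, FiniteDimensional ℂ (X ⟶ Y)] (Y Y' : C) (n : ℕ) :
    TU p Y' n * TU p Y n = TU p (Y ⊗ Y') n := by
  unfold TU
  rw [p.T_mul]
  refine p.T_iso _ _ _ _ (NatIso.ofComponents (fun X => α_ X Y Y') (by
    intro X Z f
    simp)) ?_ n
  rw [PathData.compIso_hom_app]
  simp only [cU_hom_app, NatIso.ofComponents_hom_app]
  change ((α_ V P Y).hom ▷ Y' ≫ (α_ V (P ⊗ Y) Y').hom) ≫ V ◁ (α_ P Y Y').hom =
    (α_ (V ⊗ P) Y Y').hom ≫ (α_ V P (Y ⊗ Y')).hom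
  simp

lemma TU_sum [hfd : ∀ X Y : C, FiniteDimensional ℂ (X ⟶ Y)] (hS : IsSchur S) {U : C}
    (d : Dec S U) (n : ℕ) : TU p U n = ∑ i, Module.finrank ℂ (S i ⟶ U) • TU p (S i) n := by
  have h := p.T_sum (tensorRight U) (cU V U) (fun b : Fin d.n => tensorRight (S (d.idx b)))
    (fun b => cU V (S (d.idx b))) (fun b => { app := fun X => X ◁ d.inc b
                                              naturality := by intro X Y f; simp [whisker_exchange] })
    (fun b => { app := fun X => X ◁ d.prj b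
                naturality := by intro X Y f; simp [whisker_exchange] }) ?_ ?_ ?_ n
  · rw [← sum_dec hfd hS d (fun i => TU p (S i) n)]
    exact h
  · intro b
    simp only [cU_hom_app]
    change (α_ V P (S (d.idx b))).hom ≫ V ◁ (P ◁ d.inc b) = (V ⊗ P) ◁ d.inc b ≫ (α_ V P U).hom
    simp
  · change ∑ b, P ◁ d.prj b ≫ P ◁ d.inc b = 𝟙 (P ⊗ U)
    simp_rw [← MonoidalCategory.whiskerLeft_comp]
    rw [← whiskerLeft_sum, d.sum, MonoidalCategory.whiskerLeft_id]
  · intro b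
    change P ◁ d.inc b ≫ P ◁ d.prj b = 𝟙 (P ⊗ S (d.idx b))
    rw [← MonoidalCategory.whiskerLeft_comp, d.same, MonoidalCategory.whiskerLeft_id]

/-- The transfer matrices represent the opposite fusion ring. -/
lemma TU_fusion [∀ X Y : C, FiniteDimensional ℂ (X ⟶ Y)] (hS : IsSchur S)
    (dec : ∀ Z, Dec S Z) (n : ℕ) (i j : κ) :
    TU p (S j) n * TU p (S i) n =
      ∑ k, Module.finrank ℂ (S k ⟶ S i ⊗ S j) • TU p (S k) n := by
  rw [TU_mul, TU_sum p hS (dec (S i ⊗ S j))]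

end monoidal

section pf

variable {C : Type u} [Category.{v} C] [Preadditive C] [Linear ℂ C] [MonoidalCategory C]
  [MonoidalPreadditive C] [MonoidalLinear ℂ C]

variable {κ : Type} [Fintype κ] [DecidableEq κ] {S : κ → C}

/-- A nonzero map from a simple object splits. -/
lemma exists_retract {Z : C} (dec : Dec S Z) (hS : IsSchur S) {i : κ}
    (f : S i ⟶ Z) (hf : f ≠ 0) : ∃ s : Z ⟶ S i, f ≫ s = 𝟙 _ := by
  have h1 : ∃ b, f ≫ dec.prj b ≠ 0 := by
    by_contra hcon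
    push Not at hcon
    apply hf
    have : f = f ≫ ∑ b, dec.prj b ≫ dec.inc b := by rw [dec.sum, Category.comp_id]
    rw [this, Preadditive.comp_sum]
    refine Finset.sum_eq_zero fun b _ => ?_
    rw [← Category.assoc, hcon, zero_comp]
  obtain ⟨b, hb⟩ := h1
  have hib : i = dec.idx b := by
    by_contra h
    exact hb (hS.zero _ _ h _)
  have key : ∀ (j : κ) (_ : i = j) (g : Z ⟶ S j), f ≫ g ≠ 0 → ∃ s : Z ⟶ S i, f ≫ s = 𝟙 _ := by
    intro j hj g hg
    subst hj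
    obtain ⟨t, ht, _⟩ := hS.ne_zero_iso hg
    exact ⟨g ≫ t, by rw [← Category.assoc, ht]⟩
  exact key _ hib _ hb

/-- Weak rigidity: the unit is a retract of `S i ⊗ Y` for some `Y`. -/
def WeakRigid (S : κ → C) : Prop :=
  ∀ i, ∃ (Y : C) (s : 𝟙_ C ⟶ S i ⊗ Y) (t : S i ⊗ Y ⟶ 𝟙_ C), s ≫ t = 𝟙 _

lemma exists_hom (dec : ∀ Z, Dec S Z) (hS : IsSchur S) (hr : WeakRigid S) (i k : κ) :
    ∃ j, 0 < Module.finrank ℂ (S k ⟶ S i ⊗ S j) := by
  obtain ⟨Y, s, t, hst⟩ := hr i
  set d := dec (Y ⊗ S k) with hd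
  -- the map S k ⟶ S i ⊗ (Y ⊗ S k)
  set f : S k ⟶ S i ⊗ (Y ⊗ S k) := (λ_ (S k)).inv ≫ s ▷ S k ≫ (α_ _ _ _).hom with hf
  have hf0 : f ≠ 0 := by
    intro h0
    have h1 : f ≫ (α_ _ _ _).inv ≫ t ▷ S k ≫ (λ_ (S k)).hom = 𝟙 _ := by
      rw [hf]
      simp only [Category.assoc, Iso.hom_inv_id_assoc]
      rw [← comp_whiskerRight_assoc, hst]
      simp
    rw [h0, zero_comp] at h1
    exact hS.ne k h1.symm
  have h2 : ∃ b, f ≫ S i ◁ d.prj b ≠ 0 := by
    by_contra hcon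
    push Not at hcon
    apply hf0
    have : f = f ≫ S i ◁ (∑ b, d.prj b ≫ d.inc b) := by
      rw [d.sum, MonoidalCategory.whiskerLeft_id, Category.comp_id]
    rw [this, whiskerLeft_sum, Preadditive.comp_sum]
    refine Finset.sum_eq_zero fun b _ => ?_
    rw [MonoidalCategory.whiskerLeft_comp, ← Category.assoc, hcon, zero_comp]
  obtain ⟨b, hb⟩ := h2
  refine ⟨d.idx b, ?_⟩
  have := finite_hom hS (dec (S k)) (dec (S i ⊗ S (d.idx b)))
  rw [Module.finrank_pos_iff_exists_ne_zero]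
  exact ⟨_, hb⟩

/-- Multiplicity matrix, with real entries. -/
noncomputable def NM (S : κ → C) (X : C) : Matrix κ κ ℝ :=
  fun k j => (Module.finrank ℂ (S k ⟶ X ⊗ S j) : ℝ)

/-- Matrix of right multiplication by the sum of the simple objects. -/
noncomputable def RM (S : κ → C) : Matrix κ κ ℝ :=
  fun k i => ∑ j, (Module.finrank ℂ (S k ⟶ S i ⊗ S j) : ℝ)

lemma finrank_congr {X Y Z : C} (f : Y ≅ Z) :
    Module.finrank ℂ (X ⟶ Y) = Module.finrank ℂ (X ⟶ Z) :=
  (Linear.homCongr ℂ (Iso.refl X) f).finrank_eq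

lemma NM_RM [hfd : ∀ X Y : C, FiniteDimensional ℂ (X ⟶ Y)] (dec : ∀ Z, Dec S Z)
    (hS : IsSchur S) (X : C) : NM S X * RM S = RM S * NM S X := by
  ext k i
  rw [Matrix.mul_apply, Matrix.mul_apply]
  have h1 : ∀ j, (Module.finrank ℂ (S k ⟶ X ⊗ (S i ⊗ S j)) : ℝ) =
      ∑ l, (Module.finrank ℂ (S l ⟶ S i ⊗ S j) : ℝ) * (Module.finrank ℂ (S k ⟶ X ⊗ S l) : ℝ) := by
    intro j
    exact_mod_cast finrank_expand hfd hS (dec (S i ⊗ S j)) (tensorLeft X) (S k)
  have h2 : ∀ j, (Module.finrank ℂ (S k ⟶ (X ⊗ S i) ⊗ S j) : ℝ) =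
      ∑ l, (Module.finrank ℂ (S l ⟶ X ⊗ S i) : ℝ) * (Module.finrank ℂ (S k ⟶ S l ⊗ S j) : ℝ) := by
    intro j
    exact_mod_cast finrank_expand hfd hS (dec (X ⊗ S i)) (tensorRight (S j)) (S k)
  have h3 : ∀ j, (Module.finrank ℂ (S k ⟶ (X ⊗ S i) ⊗ S j) : ℝ) =
      (Module.finrank ℂ (S k ⟶ X ⊗ (S i ⊗ S j)) : ℝ) := by
    intro j
    rw [finrank_congr (α_ X (S i) (S j))]
  have e1 : ∑ l, NM S X k l * RM S l i = ∑ j, (Module.finrank ℂ (S k ⟶ X ⊗ (S i ⊗ S j)) : ℝ) := by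
    simp_rw [h1]
    rw [Finset.sum_comm]
    refine Finset.sum_congr rfl fun l _ => ?_
    unfold NM RM
    rw [Finset.mul_sum]
    exact Finset.sum_congr rfl fun j _ => mul_comm _ _
  have e2 : ∑ l, RM S k l * NM S X l i = ∑ j, (Module.finrank ℂ (S k ⟶ (X ⊗ S i) ⊗ S j) : ℝ) := by
    simp_rw [h2]
    rw [Finset.sum_comm]
    refine Finset.sum_congr rfl fun l _ => ?_
    unfold NM RM
    rw [Finset.sum_mul]
    exact Finset.sum_congr rfl fun j _ => mul_comm _ _
  rw [e1, e2]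
  exact Finset.sum_congr rfl fun j _ => (h3 j).symm

lemma RM_pos (dec : ∀ Z, Dec S Z)
    (hS : IsSchur S) (hr : WeakRigid S) (k i : κ) : 0 < RM S k i := by
  obtain ⟨j, hj⟩ := exists_hom dec hS hr i k
  unfold RM
  refine Finset.sum_pos' (fun j _ => Nat.cast_nonneg _) ⟨j, Finset.mem_univ _, ?_⟩
  exact_mod_cast hj

/-- The common Perron-Frobenius eigenvector. -/
lemma exists_pf [hfd : ∀ X Y : C, FiniteDimensional ℂ (X ⟶ Y)] [Nonempty κ]
    (dec : ∀ Z, Dec S Z) (hS : IsSchur S) (hr : WeakRigid S) :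
    ∃ (w : κ → ℝ) (d : C → ℝ), (∀ i, 0 < w i) ∧ (∀ X, (NM S X).mulVec w = d X • w) ∧
      (∀ i, 0 < d (S i)) := by
  obtain ⟨w, hw, h⟩ := pf_common (RM S) (RM_pos dec hS hr)
  have h1 : ∀ X, ∃ d : ℝ, (NM S X).mulVec w = d • w := fun X => h _ (NM_RM dec hS X)
  choose d hd using h1
  refine ⟨w, d, hw, hd, fun i => ?_⟩
  obtain ⟨j, hj⟩ := exists_hom dec hS hr i i
  have h2 : ((NM S (S i)).mulVec w) i = d (S i) * w i := by rw [hd]; rfl
  have h3 : 0 < ((NM S (S i)).mulVec w) i := by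
    unfold Matrix.mulVec dotProduct
    refine Finset.sum_pos' (fun l _ => mul_nonneg (Nat.cast_nonneg _) (hw l).le)
      ⟨j, Finset.mem_univ _, mul_pos ?_ (hw j)⟩
    change (0 : ℝ) < (Module.finrank ℂ (S i ⟶ S i ⊗ S j) : ℝ)
    exact_mod_cast hj
  rw [h2] at h3
  exact (mul_pos_iff_of_pos_right (hw i)).mp h3

/-- `d` is the Perron-Frobenius eigenvalue of the matrix `A` of natural numbers. -/
def IsPF {κ : Type} [Fintype κ] [DecidableEq κ] (A : Matrix κ κ ℕ) (d : ℝ) : Prop :=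
  (d : ℂ) ∈ spectrum ℂ (A.map (fun x : ℕ => (x : ℂ))) ∧
    ∀ z ∈ spectrum ℂ (A.map (fun x : ℕ => (x : ℂ))), ‖z‖ ≤ d

/-- The matrix of left multiplication by the class of `X`. -/
noncomputable def fusionMatrix (S : κ → C) (X : C) : Matrix κ κ ℕ :=
  fun k j => Module.finrank ℂ (S k ⟶ X ⊗ S j)

/-- The eigenvalue of the positive eigenvector is the Perron-Frobenius eigenvalue. -/
lemma pf_of_vec (V : C) (w : κ → ℝ) (hw : ∀ i, 0 < w i) [Nonempty κ] (d : ℝ)
    (h : (NM S V).mulVec w = d • w) : IsPF (fusionMatrix S V) d := by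
  have hmap : (fusionMatrix S V).map (fun x : ℕ => (x : ℂ)) = (NM S V).map (fun x : ℝ => (x : ℂ)) := by
    ext k j
    simp [fusionMatrix, NM]
  have hb := pf_bound (NM S V) (fun i j => Nat.cast_nonneg _) w hw d h
  refine ⟨?_, ?_⟩
  · rw [hmap, ← Matrix.spectrum_toLin', ← Module.End.hasEigenvalue_iff_mem_spectrum]
    refine Module.End.hasEigenvalue_of_hasEigenvector (x := fun i => (w i : ℂ)) ⟨?_, ?_⟩
    · rw [Module.End.mem_eigenspace_iff, Matrix.toLin'_apply]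
      ext i
      have h5 := congrFun h i
      simp only [Matrix.mulVec, dotProduct, Matrix.map_apply, Pi.smul_apply, smul_eq_mul] at h5 ⊢
      exact_mod_cast h5
    · intro h6
      obtain ⟨i⟩ := ‹Nonempty κ›
      have h7 := congrFun h6 i
      simp only [Pi.zero_apply, Complex.ofReal_eq_zero] at h7
      exact (hw i).ne' h7
  · rw [hmap]
    exact hb

end pf

section main

variable {C : Type u} [Category.{v} C] [Preadditive C] [Linear ℂ C] [MonoidalCategory C]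
  [MonoidalPreadditive C] [MonoidalLinear ℂ C]

variable {κ : Type} [Fintype κ] [DecidableEq κ] {S : κ → C}

lemma sum_count [hfd : ∀ X Y : C, FiniteDimensional ℂ (X ⟶ Y)]
    (dec : ∀ Z, Dec S Z) (hS : IsSchur S) (w : κ → ℝ) (d : C → ℝ)
    (hd : ∀ X, (NM S X).mulVec w = d X • w) (V : C) :
    ∑ i, w i * (∑ j, (Module.finrank ℂ (S j ⟶ V ⊗ (S j ⊗ S i)) : ℝ)) =
      d V * ∑ i, w i * d (S i) := by
  have hd' : ∀ X k, ∑ l, (Module.finrank ℂ (S k ⟶ X ⊗ S l) : ℝ) * w l = d X * w k := by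
    intro X k
    exact congrFun (hd X) k
  have h1 : ∀ i j, (Module.finrank ℂ (S j ⟶ V ⊗ (S j ⊗ S i)) : ℝ) =
      ∑ l, (Module.finrank ℂ (S l ⟶ S j ⊗ S i) : ℝ) * (Module.finrank ℂ (S j ⟶ V ⊗ S l) : ℝ) := by
    intro i j
    exact_mod_cast finrank_expand hfd hS (dec (S j ⊗ S i)) (tensorLeft V) (S j)
  simp_rw [h1, Finset.mul_sum]
  rw [Finset.sum_comm]
  refine Finset.sum_congr rfl fun j _ => ?_
  rw [Finset.sum_comm]
  have h2 : ∀ l, ∑ i, w i * ((Module.finrank ℂ (S l ⟶ S j ⊗ S i) : ℝ) *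
      (Module.finrank ℂ (S j ⟶ V ⊗ S l) : ℝ)) =
      d (S j) * ((Module.finrank ℂ (S j ⟶ V ⊗ S l) : ℝ) * w l) := by
    intro l
    have : ∀ i, w i * ((Module.finrank ℂ (S l ⟶ S j ⊗ S i) : ℝ) *
      (Module.finrank ℂ (S j ⟶ V ⊗ S l) : ℝ)) =
      ((Module.finrank ℂ (S l ⟶ S j ⊗ S i) : ℝ) * w i) *
      (Module.finrank ℂ (S j ⟶ V ⊗ S l) : ℝ) := fun i => by ring
    simp_rw [this]
    rw [← Finset.sum_mul, hd']
    ring
  simp_rw [h2]
  rw [← Finset.mul_sum, hd']
  ring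

/-- The eigenvalues on the common positive eigenvector are cyclotomic. -/
theorem eig_cyclotomic [hfd : ∀ X Y : C, FiniteDimensional ℂ (X ⟶ Y)] [Nonempty κ]
    (hS : IsSchur S) (dec : ∀ Z, Dec S Z) (Q : SumObj S)
    (w : κ → ℝ) (d : C → ℝ) (hw : ∀ i, 0 < w i) (hd : ∀ X, (NM S X).mulVec w = d X • w)
    (hdpos : ∀ i, 0 < d (S i)) (V : C) : (d V : ℂ) ∈ Kcyc := by
  obtain ⟨B, hq⟩ := exists_base hS dec Q
  obtain ⟨P, π, ι, h1, h2, h3⟩ := Q
  set p := pathData B π ι hq h1 h2 h3 (tensorLeft V) (fun j => dec _) with hp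
  set f : ℝ := ∑ i, w i * d (S i) with hf
  have hfpos : 0 < f := Finset.sum_pos (fun i _ => mul_pos (hw i) (hdpos i)) Finset.univ_nonempty
  have hroot : ∀ (z : ℂ) (n : ℕ), 0 < n → z ^ n = 1 → z ∈ Kcyc := fun z n hn hz =>
    Subfield.subset_closure ⟨n, hn, hz⟩
  have htr : ∀ n, 1 ≤ n → ∑ i, ((w i / f : ℝ) : ℂ) *
      LinearMap.trace ℂ (PathData.Qs (F := tensorLeft V) (tensorRight (S i)) B)
        ((p.WQ (tensorRight (S i)) (cU V (S i))) ^ n) ∈ Kcyc := by
    intro n hn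
    obtain ⟨m, rfl⟩ : ∃ m, n = m + 1 := ⟨n - 1, by omega⟩
    set e := ∑ i, ((w i / f : ℝ) : ℂ) • TU p (S i) m with he
    have hidem : e * e = e := by
      refine idem_of_mul (fun i => TU p (S i) m)
        (fun k i j => Module.finrank ℂ (S k ⟶ S i ⊗ S j)) (fun i j => TU_fusion p hS dec m i j)
        w (fun i => d (S i)) f (fun i k => congrFun (hd (S i)) k) hf hfpos.ne'
    have hrot : ∀ y x, e (rot y) (rot x) = e y x := by
      intro y x
      simp only [he, Matrix.sum_apply, Matrix.smul_apply]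
      refine Finset.sum_congr rfl fun i _ => ?_
      congr 1
      exact p.T_rot (tensorRight (S i)) (cU V (S i)) m y x
    have hpow := rot_pow e hrot hidem
    have hmem := trace_mem Kcyc hroot (e.submatrix rot id) (m + 1) (Nat.succ_pos _) hpow
    have htrace : (e.submatrix rot id).trace = ∑ i, ((w i / f : ℝ) : ℂ) *
        LinearMap.trace ℂ (PathData.Qs (F := tensorLeft V) (tensorRight (S i)) B)
        ((p.WQ (tensorRight (S i)) (cU V (S i))) ^ (m + 1)) := by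
      simp_rw [PathData.trace_WQ]
      unfold Matrix.trace
      simp only [Matrix.diag_apply, Matrix.submatrix_apply, id_eq, he, Matrix.sum_apply,
        Matrix.smul_apply, smul_eq_mul]
      rw [Finset.sum_comm]
      refine Finset.sum_congr rfl fun i _ => ?_
      rw [Finset.mul_sum]
      rfl
    rwa [htrace] at hmem
  have hrec := recur_mem Kcyc (fun i : κ => ((w i / f : ℝ) : ℂ))
    (fun i => PathData.Qs (F := tensorLeft V) (tensorRight (S i)) B)
    (fun i => p.WQ (tensorRight (S i)) (cU V (S i)))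
    (fun i => p.WQ_injective (tensorRight (S i)) (cU V (S i))) htr
  have hfr : ∀ i, (Module.finrank ℂ (PathData.Qs (F := tensorLeft V) (tensorRight (S i)) B)) =
      ∑ j, Module.finrank ℂ (S j ⟶ V ⊗ (S j ⊗ S i)) := fun i =>
    PathData.finrank_Qs (F := tensorLeft V) (B := B) (tensorRight (S i)) S π ι hq h1
  have hsum : ∑ i, ((w i / f : ℝ) : ℂ) *
      (Module.finrank ℂ (PathData.Qs (F := tensorLeft V) (tensorRight (S i)) B) : ℂ) = (d V : ℂ) := by
    have h5 := sum_count dec hS w d hd V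
    have h6 : ∑ i, (w i / f) * (∑ j, (Module.finrank ℂ (S j ⟶ V ⊗ (S j ⊗ S i)) : ℝ)) = d V := by
      have : ∀ i, (w i / f) * (∑ j, (Module.finrank ℂ (S j ⟶ V ⊗ (S j ⊗ S i)) : ℝ)) =
          (w i * (∑ j, (Module.finrank ℂ (S j ⟶ V ⊗ (S j ⊗ S i)) : ℝ))) / f := fun i => by ring
      simp_rw [this]
      rw [← Finset.sum_div, h5, ← hf]
      field_simp
    rw [← h6]
    simp_rw [hfr]
    push_cast
    rfl
  rw [← hsum]
  exact hrec

end main

end Pool.Agent.H60R2.SF
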