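import Pool.Agent.H60R2.SF.Dual

/-!
The dimension of a finitely generated projective left module with respect to a trace, and its
behaviour under the functor `Hom_R(A, -)`.
-/

set_option autoImplicit false
set_option linter.unusedSectionVars false

open CategoryTheory CategoryTheory.Limits MonoidalCategory MulOpposite TensorProduct

namespace Pool.Agent.H60R2.SF

universe u

variable {R A : Type u} [Ring R] [Algebra ℂ R] [Ring A] [Algebra ℂ A]

attribute [local instance] endofunctorMonoidalCategory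

/-- The left module `Z` is finitely generated projective of dimension `d` with respect to the
trace `τ`. -/
def HasDim (τ : R →ₗ[ℂ] ℂ) (Z : Type u) [AddCommGroup Z] [Module R Z] (d : ℝ) : Prop :=
  ∃ (ι : Type) (_ : Fintype ι) (y : ι → Z) (g : ι → (Z →ₗ[R] R)),
    (∀ x, ∑ i, g i x • y i = x) ∧ ∑ i, τ (g i (y i)) = (d : ℂ)

variable {τ : R →ₗ[ℂ] ℂ}

section dim

variable {Z Z' : Type u} [AddCommGroup Z] [Module R Z] [AddCommGroup Z'] [Module R Z']

lemma HasDim.unique (hτ : ∀ a b, τ (a * b) = τ (b * a)) {d d' : ℝ} (h : HasDim τ Z d)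
    (h' : HasDim τ Z d') : d = d' := by
  obtain ⟨ι, _, y, g, h1, h2⟩ := h
  obtain ⟨ι', _, y', g', h1', h2'⟩ := h'
  have e1 : ∑ i, τ (g i (y i)) = ∑ i, ∑ j, τ (g' j (y i) * g i (y' j)) := by
    refine Finset.sum_congr rfl fun i _ => ?_
    conv_lhs => rw [← h1' (y i)]
    rw [map_sum, map_sum]
    refine Finset.sum_congr rfl fun j _ => ?_
    rw [map_smul, smul_eq_mul]
  have e2 : ∑ j, τ (g' j (y' j)) = ∑ j, ∑ i, τ (g i (y' j) * g' j (y i)) := by
    refine Finset.sum_congr rfl fun j _ => ?_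
    conv_lhs => rw [← h1 (y' j)]
    rw [map_sum, map_sum]
    refine Finset.sum_congr rfl fun i _ => ?_
    rw [map_smul, smul_eq_mul]
  have e3 : (d : ℂ) = d' := by
    rw [← h2, ← h2', e1, e2, Finset.sum_comm]
    exact Finset.sum_congr rfl fun i _ => Finset.sum_congr rfl fun j _ => hτ _ _
  exact_mod_cast e3

/-- The positivity hypothesis on the trace. -/
def PosTrace (τ : R →ₗ[ℂ] ℂ) : Prop :=
  ∀ (ι : Type) (_ : Fintype ι) (e : Matrix ι ι R), e * e = e →
    ∃ b : ℝ, 0 ≤ b ∧ ∑ i, τ (e i i) = (b : ℂ)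

lemma exists_dim (hp : PosTrace τ) {ι : Type} [Fintype ι] (y : ι → Z) (g : ι → (Z →ₗ[R] R))
    (h : ∀ x, ∑ i, g i x • y i = x) : ∃ b : ℝ, 0 ≤ b ∧ ∑ i, τ (g i (y i)) = (b : ℂ) := by
  refine hp ι inferInstance (fun i j => g j (y i)) ?_
  ext i j
  rw [Matrix.mul_apply]
  have : ∀ k, g k (y i) * g j (y k) = g j (g k (y i) • y k) := fun k => by
    rw [map_smul, smul_eq_mul]
  simp_rw [this]
  rw [← map_sum, h]

lemma HasDim.nonneg (hp : PosTrace τ) {d : ℝ} (h : HasDim τ Z d) : 0 ≤ d := by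
  obtain ⟨ι, _, y, g, h1, h2⟩ := h
  obtain ⟨b, hb, hb2⟩ := exists_dim hp y g h1
  rw [h2] at hb2
  have : d = b := by exact_mod_cast hb2
  rw [this]; exact hb

lemma HasDim.retract (hp : PosTrace τ) {d : ℝ} (h : HasDim τ Z d) (s : Z' →ₗ[R] Z)
    (t : Z →ₗ[R] Z') (hst : ∀ x, t (s x) = x) : ∃ b, HasDim τ Z' b := by
  obtain ⟨ι, _, y, g, h1, h2⟩ := h
  have h3 : ∀ x, ∑ i, (g i ∘ₗ s) x • t (y i) = x := by
    intro x
    simp_rw [LinearMap.comp_apply, ← map_smul]
    rw [← map_sum, h1, hst]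
  obtain ⟨b, _, hb2⟩ := exists_dim hp (fun i => t (y i)) (fun i => g i ∘ₗ s) h3
  exact ⟨b, ι, inferInstance, _, _, h3, hb2⟩

lemma HasDim.add {n : ℕ} (T : Fin n → Type u) [∀ b, AddCommGroup (T b)] [∀ b, Module R (T b)]
    (inc : ∀ b, T b →ₗ[R] Z) (prj : ∀ b, Z →ₗ[R] T b) (h1 : ∀ x, ∑ b, inc b (prj b x) = x)
    (h2 : ∀ b x, prj b (inc b x) = x) (c : Fin n → ℝ) (h : ∀ b, HasDim τ (T b) (c b)) :
    HasDim τ Z (∑ b, c b) := by
  choose ι hι y g hg1 hg2 using h
  refine ⟨Σ b, ι b, inferInstance, fun x => inc x.1 (y x.1 x.2), fun x => g x.1 x.2 ∘ₗ prj x.1,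
    ?_, ?_⟩
  · intro x
    rw [Fintype.sum_sigma]
    conv_rhs => rw [← h1 x]
    refine Finset.sum_congr rfl fun b _ => ?_
    have e : ∀ i, (g b i ∘ₗ prj b) x • inc b (y b i) = inc b (g b i (prj b x) • y b i) := fun i => by
      rw [map_smul]; rfl
    refine (Finset.sum_congr rfl fun i _ => e i).trans ?_
    refine (map_sum (inc b) _ _).symm.trans ?_
    rw [hg1]
  · rw [Fintype.sum_sigma]
    push_cast
    refine Finset.sum_congr rfl fun b _ => ?_
    rw [← hg2]
    refine Finset.sum_congr rfl fun i _ => ?_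
    change τ (g b i (prj b (inc b (y b i)))) = _
    rw [h2]

lemma HasDim.one (h1 : τ 1 = 1) : HasDim τ R 1 := by
  refine ⟨Unit, inferInstance, fun _ => 1, fun _ => LinearMap.id, ?_, ?_⟩
  · intro x; simp
  · simp [h1]

end dim

/-- All the algebraic data of a finite index extension. -/
structure TD (φ : R →ₐ[ℂ] A) (lam : ℝ) extends QB φ where
  E_one : E 1 = 1
  index : ∑ i, u i * v i = algebraMap ℂ A lam
  τ : R →ₗ[ℂ] ℂ
  τ_one : τ 1 = 1
  τ_comm : ∀ a b, τ (a * b) = τ (b * a)
  τE_comm : ∀ a b, τ (E (a * b)) = τ (E (b * a))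
  pos : PosTrace τ

section P

variable {φ : R →ₐ[ℂ] A} {lam : ℝ} (q : TD φ lam)

variable {Z : Type u} [AddCommGroup Z] [Module R Z]

/-- The coordinate functionals on `Hom_R(A, Z)`. -/
def TD.coord (g : Z →ₗ[R] R) (k : Fin q.n) : LHom (extB φ) Z →ₗ[R] R where
  toFun h := ∑ i, q.E (q.u i * φ (g (h.ap (q.v i))) * q.u k)
  map_add' h h' := by
    rw [← Finset.sum_add_distrib]
    refine Finset.sum_congr rfl fun i _ => ?_
    rw [LHom.add_ap, map_add, map_add, mul_add, add_mul, map_add]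
  map_smul' s h := by
    rw [RingHom.id_apply, smul_eq_mul, Finset.mul_sum]
    have h1 : ∀ i, q.E (q.u i * φ (g ((s • h).ap (q.v i))) * q.u k) =
        ∑ j, q.E (q.u i * φ (q.E (q.v i * (φ s * q.u j))) * (φ (g (h.ap (q.v j))) * q.u k)) := by
      intro i
      have h2 : (s • h).ap (q.v i) = h.ap (q.v i * φ s : A) := rfl
      have h3 : (q.v i * φ s : A) = ∑ j, φ (q.E (q.v i * φ s * q.u j)) * q.v j :=
        (q.right _).symm
      have h4 : h.ap (q.v i * φ s : A) =
          ∑ j, q.E (q.v i * φ s * q.u j) • h.ap (q.v j) := by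
        conv_lhs => rw [h3]
        refine (LHom.ap_sum h _ _).trans ?_
        exact Finset.sum_congr rfl fun j _ => ext_ap_l h _ _
      rw [h2, h4, map_sum, map_sum, Finset.mul_sum, Finset.sum_mul, map_sum]
      refine Finset.sum_congr rfl fun j _ => ?_
      rw [map_smul, smul_eq_mul, map_mul φ]
      congr 1
      simp only [mul_assoc]
    simp_rw [h1]
    rw [Finset.sum_comm]
    refine Finset.sum_congr rfl fun j _ => ?_
    rw [← map_sum, ← Finset.sum_mul, q.left, mul_assoc, q.E_left, mul_assoc]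

lemma TD.coord_apply (g : Z →ₗ[R] R) (k : Fin q.n) (h : LHom (extB φ) Z) :
    q.coord g k h = ∑ i, q.E (q.u i * φ (g (h.ap (q.v i))) * q.u k) := rfl

/-- The dimension is multiplied by the index. -/
theorem TD.dim_P {d : ℝ} (h : HasDim q.τ Z d) : HasDim q.τ (LHom (extB φ) Z) (lam * d) := by
  obtain ⟨ι, _, y, g, h1, h2⟩ := h
  refine ⟨Fin q.n × ι, inferInstance, fun x => q.toQB.co1 (q.v x.1) (y x.2),
    fun x => q.coord (g x.2) x.1, ?_, ?_⟩
  · intro h
    refine LHom.ext fun (x : A) => ?_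
    rw [LHom.sum_ap, Fintype.sum_prod_type, Finset.sum_comm]
    -- for fixed j
    have e1 : ∀ j, ∑ k, (q.coord (g j) k h • q.toQB.co1 (q.v k) (y j)).ap x =
        ∑ i, (q.E (x * q.u i) * g j (h.ap (q.v i))) • y j := by
      intro j
      set w : A := ∑ i, q.u i * φ (g j (h.ap (q.v i))) with hw
      have e2 : ∀ k, q.coord (g j) k h = q.E (w * q.u k) := by
        intro k
        rw [q.coord_apply, hw, Finset.sum_mul, map_sum]
      have e3 : ∀ k, (q.coord (g j) k h • q.toQB.co1 (q.v k) (y j)).ap x =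
          q.E (x * (φ (q.E (w * q.u k)) * q.v k)) • y j := by
        intro k
        rw [e2]
        change q.E (x * φ (q.E (w * q.u k)) * q.v k) • y j = _
        rw [mul_assoc]
      simp_rw [e3]
      rw [← Finset.sum_smul, ← map_sum, ← Finset.mul_sum, q.right, hw, Finset.mul_sum, map_sum,
        Finset.sum_smul]
      refine Finset.sum_congr rfl fun i _ => ?_
      rw [← mul_assoc, q.E_right]
    simp_rw [e1]
    rw [Finset.sum_comm]
    have e4 : ∀ i, ∑ j, (q.E (x * q.u i) * g j (h.ap (q.v i))) • y j =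
        q.E (x * q.u i) • h.ap (q.v i) := by
      intro i
      simp_rw [mul_smul]
      rw [← Finset.smul_sum, h1]
    simp_rw [e4]
    have e5 : ∀ i, q.E (x * q.u i) • h.ap (q.v i) = h.ap (φ (q.E (x * q.u i)) * q.v i : A) :=
      fun i => (ext_ap_l h _ _).symm
    simp_rw [e5]
    refine (LHom.ap_sum h _ _).symm.trans ?_
    exact congrArg h.ap (q.right x)
  · rw [Fintype.sum_prod_type, Finset.sum_comm]
    have e1 : ∀ j, ∑ k, q.τ (q.coord (g j) k (q.toQB.co1 (q.v k) (y j))) =
        lam * q.τ (g j (y j)) := by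
      intro j
      have e2 : ∀ k, q.τ (q.coord (g j) k (q.toQB.co1 (q.v k) (y j))) =
          q.τ (q.E (φ (g j (y j)) * (q.u k * q.v k))) := by
        intro k
        rw [q.coord_apply]
        have e3 : ∀ i, q.E (q.u i * φ (g j ((q.toQB.co1 (q.v k) (y j)).ap (q.v i))) * q.u k) =
            q.E (q.u i * φ (q.E (q.v i * q.v k)) * (φ (g j (y j)) * q.u k)) := by
          intro i
          rw [q.toQB.co1_ap, map_smul, smul_eq_mul, map_mul φ]
          congr 1
          simp only [mul_assoc]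
        simp_rw [e3]
        rw [← map_sum, ← Finset.sum_mul, q.left, q.τE_comm, mul_assoc]
      simp_rw [e2]
      rw [← map_sum, ← map_sum, ← Finset.mul_sum, q.index, q.E_left]
      have e4 : q.E (algebraMap ℂ A lam) = algebraMap ℂ R lam := by
        rw [Algebra.algebraMap_eq_smul_one, map_smul, q.E_one, Algebra.algebraMap_eq_smul_one]
      rw [e4, Algebra.algebraMap_eq_smul_one, mul_smul_comm, mul_one, map_smul, smul_eq_mul]
    simp_rw [e1]
    rw [← Finset.mul_sum, h2]
    push_cast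
    rfl

end P

/-- The dimension data on the category of endofunctors. -/
def TD.dimData {φ : R →ₐ[ℂ] A} {lam : ℝ} (q : TD φ lam) : DimData (FX (extB φ)) lam where
  rel F d := HasDim q.τ (F.obj.obj (ModuleCat.of R R)) d
  unique h h' := HasDim.unique q.τ_comm h h'
  add := by
    intro Z n T inc prj h1 h2 h3 c h
    refine HasDim.add (fun b => (T b).obj.obj (ModuleCat.of R R))
      (fun b => ((inc b).hom.app (ModuleCat.of R R)).hom)
      (fun b => ((prj b).hom.app (ModuleCat.of R R)).hom) ?_ ?_ c h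
    · intro x
      have := congrArg (fun t : Z ⟶ Z => (t.hom.app (ModuleCat.of R R)).hom x) h1
      have h4 := sum_app Finset.univ (fun b => prj b ≫ inc b) (ModuleCat.of R R) x
      exact h4.symm.trans this
    · intro b x
      exact congrArg (fun t : T b ⟶ T b => (t.hom.app (ModuleCat.of R R)).hom x) (h2 b)
  tens h := q.dim_P h
  nonneg h := HasDim.nonneg q.pos h
  unit := HasDim.one q.τ_one
  retract := by
    intro X Y a s t hst h
    refine HasDim.retract q.pos h ((s.hom.app (ModuleCat.of R R)).hom)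
      ((t.hom.app (ModuleCat.of R R)).hom) ?_
    intro x
    exact congrArg (fun t : X ⟶ X => (t.hom.app (ModuleCat.of R R)).hom x) hst

end Pool.Agent.H60R2.SF
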