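import Pool.Agent.H60R2.SF.Tens

/-!
The functor `Hom_R(A, -)` of a Frobenius extension is self-dual.
-/

set_option autoImplicit false
set_option linter.unusedSectionVars false

open CategoryTheory CategoryTheory.Limits MonoidalCategory MulOpposite TensorProduct

namespace Pool.Agent.H60R2.SF

universe u

variable {R A : Type u} [Ring R] [Algebra ℂ R] [Ring A] [Algebra ℂ A]

attribute [local instance] endofunctorMonoidalCategory

/-- A bimodule projection `E : A → R` with a quasi-basis. -/
structure QB (φ : R →ₐ[ℂ] A) where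
  E : A →ₗ[ℂ] R
  E_left : ∀ s a, E (φ s * a) = s * E a
  E_right : ∀ a s, E (a * φ s) = E a * s
  n : ℕ
  u : Fin n → A
  v : Fin n → A
  left : ∀ x, ∑ i, u i * φ (E (v i * x)) = x
  right : ∀ x, ∑ i, φ (E (x * u i)) * v i = x

variable {φ : R →ₐ[ℂ] A} (q : QB φ)

section maps

variable {Z : Type u} [AddCommGroup Z] [Module R Z]

/-- The left linear map `x' ↦ E(x' x) z`. -/
def QB.co1 (x : A) (z : Z) : LHom (extB φ) Z :=
  LHom.mk (X := extB φ) (fun x' : A => q.E (x' * x) • z)
    (fun a b : A => by
      change q.E ((a + b : A) * x) • z = q.E (a * x) • z + q.E (b * x) • z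
      rw [add_mul, map_add, add_smul])
    (fun s (a : A) => by
      change q.E (φ s * a * x) • z = s • q.E (a * x) • z
      rw [mul_assoc, q.E_left, mul_smul])

lemma QB.co1_ap (x : A) (z : Z) (x' : A) : (q.co1 x z).ap x' = q.E (x' * x) • z := rfl

/-- The coevaluation. -/
def QB.co2 (z : Z) : LHom (extB φ) (LHom (extB φ) Z) :=
  LHom.mk (X := extB φ) (fun x : A => q.co1 x z)
    (fun a b : A => by
      refine LHom.ext fun (x' : A) => ?_
      change q.E (x' * (a + b : A)) • z = q.E (x' * a) • z + q.E (x' * b) • z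
      rw [mul_add, map_add, add_smul])
    (fun s (a : A) => by
      refine LHom.ext fun (x' : A) => ?_
      change q.E (x' * (φ s * a)) • z = q.E (x' * φ s * a) • z
      rw [mul_assoc])

lemma QB.co2_ap (z : Z) (x x' : A) : ((q.co2 z).ap x).ap x' = q.E (x' * x) • z := rfl

/-- The coevaluation as a linear map. -/
def QB.co (Z : Type u) [AddCommGroup Z] [Module R Z] :
    Z →ₗ[R] LHom (extB φ) (LHom (extB φ) Z) where
  toFun := q.co2
  map_add' z z' := by
    refine LHom.ext fun (x : A) => LHom.ext fun (x' : A) => ?_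
    change q.E (x' * x) • (z + z') = q.E (x' * x) • z + q.E (x' * x) • z'
    rw [smul_add]
  map_smul' s z := by
    refine LHom.ext fun (x : A) => LHom.ext fun (x' : A) => ?_
    change q.E (x' * x) • s • z = q.E (x' * (x * φ s)) • z
    rw [← mul_assoc, q.E_right, mul_smul]

lemma ext_ap_l (g : LHom (extB φ) Z) (s : R) (a : A) : g.ap (φ s * a : A) = s • g.ap a :=
  g.ap_l s a

/-- The evaluation. -/
def QB.ev (Z : Type u) [AddCommGroup Z] [Module R Z] :
    LHom (extB φ) (LHom (extB φ) Z) →ₗ[R] Z where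
  toFun G := ∑ i, (G.ap (q.v i)).ap (q.u i)
  map_add' G G' := by
    rw [← Finset.sum_add_distrib]
    rfl
  map_smul' s G := by
    rw [RingHom.id_apply]
    have h1 : ∀ i, ((s • G).ap (q.v i)).ap (q.u i) =
        ∑ j, (G.ap (q.v j)).ap (q.u i * φ (q.E (q.v i * (φ s * q.u j))) : A) := by
      intro i
      have h2 : (s • G).ap (q.v i) = G.ap (q.v i * φ s : A) := rfl
      have h3 : (q.v i * φ s : A) = ∑ j, φ (q.E (q.v i * φ s * q.u j)) * q.v j :=
        (q.right _).symm
      have h4 : G.ap (q.v i * φ s : A) =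
          ∑ j, q.E (q.v i * φ s * q.u j) • G.ap (q.v j) := by
        conv_lhs => rw [h3]
        refine (LHom.ap_sum G _ _).trans ?_
        exact Finset.sum_congr rfl fun j _ => ext_ap_l G _ _
      rw [h2, h4, LHom.sum_ap]
      refine Finset.sum_congr rfl fun j _ => ?_
      rw [mul_assoc]
      rfl
    simp_rw [h1]
    rw [Finset.sum_comm, Finset.smul_sum]
    refine Finset.sum_congr rfl fun j _ => ?_
    refine (LHom.ap_sum (G.ap (q.v j)) _ _).symm.trans ?_
    have h5 : (∑ i, q.u i * φ (q.E (q.v i * (φ s * q.u j))) : A) = φ s * q.u j := q.left _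
    exact (congrArg (G.ap (q.v j)).ap h5).trans (ext_ap_l _ _ _)

lemma QB.ev_apply (G : LHom (extB φ) (LHom (extB φ) Z)) :
    q.ev Z G = ∑ i, (G.ap (q.v i)).ap (q.u i) := rfl

end maps

/-- Coevaluation, natural. -/
def QB.coev : 𝟙_ (LinEnd R) ⟶ FX (extB φ) ⊗ FX (extB φ) :=
  ObjectProperty.homMk
    { app := fun Z => ModuleCat.ofHom (R := R) (X := Z) (Y := LHom (extB φ) (LHom (extB φ) Z))
        (q.co Z)
      naturality := by
        intro Z Z' g
        ext z
        refine LHom.ext fun (x : A) => LHom.ext fun (x' : A) => ?_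
        change q.E (x' * x) • g.hom z = g.hom (q.E (x' * x) • z)
        rw [map_smul] }

/-- Evaluation, natural. -/
def QB.evn : FX (extB φ) ⊗ FX (extB φ) ⟶ 𝟙_ (LinEnd R) :=
  ObjectProperty.homMk
    { app := fun Z => ModuleCat.ofHom (R := R) (X := LHom (extB φ) (LHom (extB φ) Z)) (Y := Z)
        (q.ev Z)
      naturality := by
        intro Z Z' g
        ext G
        change ∑ i, g.hom ((LHom.ap (LHom.ap (Z := LHom (extB φ) Z) G (q.v i)) (q.u i))) =
          g.hom (∑ i, (LHom.ap (LHom.ap (Z := LHom (extB φ) Z) G (q.v i)) (q.u i)))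
        rw [map_sum] }

/-- The functor of a Frobenius extension is self-dual. -/
@[instance_reducible]
def QB.exact : ExactPairing (FX (extB φ)) (FX (extB φ)) where
  coevaluation' := q.coev
  evaluation' := q.evn
  coevaluation_evaluation' := by
    apply LinEnd.ext_app
    intro Z
    ext h
    refine LHom.ext fun (x : A) => ?_
    change ∑ i, LHom.ap (X := extB φ) (Z := Z) h (q.u i * φ (q.E (q.v i * x)) : A) =
      LHom.ap (X := extB φ) (Z := Z) h x
    refine (LHom.ap_sum (X := extB φ) (Z := Z) h _ _).symm.trans ?_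
    exact congrArg (LHom.ap (X := extB φ) (Z := Z) h) (q.left x)
  evaluation_coevaluation' := by
    apply LinEnd.ext_app
    intro Z
    ext h
    refine LHom.ext fun (x : A) => ?_
    have h1 : ∀ i, q.E (x * q.u i) • LHom.ap (X := extB φ) (Z := Z) h (q.v i) =
        LHom.ap (X := extB φ) (Z := Z) h (φ (q.E (x * q.u i)) * q.v i : A) := fun i =>
      (ext_ap_l (Z := Z) h _ _).symm
    have h2 : ∑ i, q.E (x * q.u i) • LHom.ap (X := extB φ) (Z := Z) h (q.v i) =
        LHom.ap (X := extB φ) (Z := Z) h x := by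
      simp_rw [h1]
      refine (LHom.ap_sum (X := extB φ) (Z := Z) h _ _).symm.trans ?_
      exact congrArg (LHom.ap (X := extB φ) (Z := Z) h) (q.right x)
    refine Eq.trans ?_ h2
    refine (LHom.sum_ap (X := extB φ) (Z := Z) _ _ x).trans ?_
    rfl

end Pool.Agent.H60R2.SF
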