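import Pool.Agent.H60R2.SF.Cyc

/-!
Objects whose identity factors through finite sums of members of a Schur list; such objects
decompose (Krull-Schmidt).
-/

set_option autoImplicit false
set_option linter.unusedSectionVars false

open CategoryTheory CategoryTheory.Limits MonoidalCategory

namespace Pool.Agent.H60R2.SF

universe v u

section fac

variable {D : Type u} [Category.{v} D] [Preadditive D] [Linear ℂ D]
variable {κ : Type} [Fintype κ] [DecidableEq κ] {S : κ → D}

/-- The identity of `Y` factors through a finite sum of members of `S`. -/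
def Fac {κ : Type} (S : κ → D) (Y : D) : Prop :=
  ∃ (ι : Type) (_ : Fintype ι) (idx : ι → κ) (g : ∀ c, Y ⟶ S (idx c)) (f : ∀ c, S (idx c) ⟶ Y),
    ∑ c, g c ≫ f c = 𝟙 Y

lemma Fac.self (i : κ) : Fac S (S i) :=
  ⟨Unit, inferInstance, fun _ => i, fun _ => 𝟙 _, fun _ => 𝟙 _, by simp⟩

lemma Fac.trans {Y : D} {ι : Type} [Fintype ι] (Z : ι → D) (g : ∀ c, Y ⟶ Z c) (f : ∀ c, Z c ⟶ Y)
    (h : ∑ c, g c ≫ f c = 𝟙 Y) (hZ : ∀ c, Fac S (Z c)) : Fac S Y := by
  choose ι' hι' idx' g' f' h' using hZ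
  refine ⟨Σ c, ι' c, inferInstance, fun x => idx' x.1 x.2, fun x => g x.1 ≫ g' x.1 x.2,
    fun x => f' x.1 x.2 ≫ f x.1, ?_⟩
  rw [Fintype.sum_sigma, ← h]
  refine Finset.sum_congr rfl fun c _ => ?_
  have : ∀ x, (g c ≫ g' c x) ≫ f' c x ≫ f c = g c ≫ (g' c x ≫ f' c x) ≫ f c := by
    intro x; simp
  simp_rw [this]
  rw [← Preadditive.comp_sum, ← Preadditive.sum_comp, h' c, Category.id_comp]

lemma Fac.retract {Y Z : D} (s : Y ⟶ Z) (t : Z ⟶ Y) (h : s ≫ t = 𝟙 Y) (hZ : Fac S Z) :
    Fac S Y :=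
  Fac.trans (fun _ : Unit => Z) (fun _ => s) (fun _ => t) (by simpa using h) (fun _ => hZ)

lemma Fac.iso {Y Z : D} (e : Y ≅ Z) (hZ : Fac S Z) : Fac S Y :=
  hZ.retract e.hom e.inv e.hom_inv_id

lemma Dec.fac {Z : D} (d : Dec S Z) : Fac S Z :=
  ⟨Fin d.n, inferInstance, d.idx, d.prj, d.inc, d.sum⟩

/-- Krull-Schmidt: an object whose identity factors through members of a Schur list is a direct
sum of members of the list. -/
lemma Fac.dec (hS : IsSchur S) {Y : D} (h : Fac S Y) : Nonempty (Dec S Y) := by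
  obtain ⟨ι, _, idx, g, f, h⟩ := h
  have hfin := finite_hom_simple hS
  have ex1 : ∀ {i : κ} (a : S i ⟶ Y), a = ∑ c, (a ≫ g c) ≫ f c := by
    intro i a
    simp_rw [Category.assoc]
    rw [← Preadditive.comp_sum, h, Category.comp_id]
  have ex2 : ∀ {i : κ} (a : Y ⟶ S i), a = ∑ c, g c ≫ (f c ≫ a) := by
    intro i a
    simp_rw [← Category.assoc]
    rw [← Preadditive.sum_comp, h, Category.id_comp]
  have hW : ∀ i, FiniteDimensional ℂ (S i ⟶ Y) := by
    intro i
    let φ : (S i ⟶ Y) →ₗ[ℂ] (∀ c, (S i ⟶ S (idx c))) :=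
      { toFun := fun a c => a ≫ g c
        map_add' := by intro a b; ext c; simp
        map_smul' := by intro a b; ext c; simp }
    refine FiniteDimensional.of_injective φ ?_
    intro a b hab
    rw [ex1 a, ex1 b]
    refine Finset.sum_congr rfl fun c _ => ?_
    have := congrFun hab c
    change a ≫ g c = b ≫ g c at this
    rw [this]
  choose sc hsc1 hsc2 using exists_scalar hS
  let p : ∀ i, (S i ⟶ Y) →ₗ[ℂ] (Y ⟶ S i) →ₗ[ℂ] ℂ := fun i =>
    LinearMap.mk₂ ℂ (fun a b => sc i (a ≫ b)) (by intros; simp) (by intros; simp)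
      (by intros; simp) (by intros; simp)
  have hp : ∀ i a b, p i a b = sc i (a ≫ b) := fun i a b => rfl
  have hp0 : ∀ i a b, p i a b = 0 → a ≫ b = 0 := by
    intro i a b hab
    rw [hsc1 i (a ≫ b), ← hp, hab, zero_smul]
  have hp1 : ∀ i, Function.Injective (p i) := by
    intro i
    rw [← LinearMap.ker_eq_bot, LinearMap.ker_eq_bot']
    intro a ha
    rw [ex1 a]
    refine Finset.sum_eq_zero fun c _ => ?_
    have key : a ≫ g c = 0 := by
      by_cases hc : i = idx c
      · have : ∀ (j : κ) (_ : i = j) (t : Y ⟶ S j), a ≫ t = 0 := by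
          intro j hj t
          subst hj
          exact hp0 i a t (by rw [ha]; rfl)
        exact this _ hc _
      · exact hS.zero _ _ hc _
    rw [key, zero_comp]
  have hp2 : ∀ i, Function.Injective (p i).flip := by
    intro i
    rw [← LinearMap.ker_eq_bot, LinearMap.ker_eq_bot']
    intro a ha
    rw [ex2 a]
    refine Finset.sum_eq_zero fun c _ => ?_
    have key : f c ≫ a = 0 := by
      by_cases hc : i = idx c
      · have : ∀ (j : κ) (_ : i = j) (t : S j ⟶ Y), t ≫ a = 0 := by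
          intro j hj t
          subst hj
          refine hp0 i t a ?_
          have := congrArg (fun l => l t) ha
          simpa using this
        exact this _ hc _
      · exact hS.zero _ _ (Ne.symm hc) _
    rw [key, comp_zero]
  have hperf : ∀ i, (p i).IsPerfPair := fun i =>
    LinearMap.IsPerfPair.of_injective (hp1 i) (hp2 i)
  let b := fun i => Module.finBasis ℂ (S i ⟶ Y)
  let b' : ∀ i, Fin (Module.finrank ℂ (S i ⟶ Y)) → (Y ⟶ S i) :=
    fun i a => (p i).flip.toPerfPair.symm ((b i).coord a)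
  have hdual : ∀ i a a', p i (b i a) (b' i a') = if a = a' then 1 else 0 := by
    intro i a a'
    have := LinearMap.apply_toPerfPair_flip (p := p i) ((b i).coord a') (b i a)
    change p i (b i a) (b' i a') = _ at this
    rw [this]
    simp [Finsupp.single_apply]
  have hcomp : ∀ i a a', b i a ≫ b' i a' = if a = a' then 𝟙 _ else 0 := by
    intro i a a'
    rw [hsc1 i (b i a ≫ b' i a'), ← hp, hdual]
    split_ifs <;> simp
  -- expansion of a map from a member of the list
  have hexp : ∀ i (a : S i ⟶ Y), a = ∑ x, (a ≫ b' i x) ≫ b i x := by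
    intro i a
    have h1 : ∀ x, (a ≫ b' i x) ≫ b i x = ((b i).repr a x) • b i x := by
      intro x
      rw [hsc1 i (a ≫ b' i x), ← hp]
      have := LinearMap.apply_toPerfPair_flip (p := p i) ((b i).coord x) a
      change p i a (b' i x) = _ at this
      rw [this]
      simp
    simp_rw [h1]
    exact ((b i).sum_repr a).symm
  let J := Σ i, Fin (Module.finrank ℂ (S i ⟶ Y))
  let e : Fin (Fintype.card J) ≃ J := (Fintype.equivFin J).symm
  refine ⟨⟨Fintype.card J, fun c => (e c).1, fun c => b _ (e c).2, fun c => b' _ (e c).2,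
    ?_, ?_, ?_⟩⟩
  · have e1 : ∑ c, b' _ (e c).2 ≫ b _ (e c).2 = ∑ x : J, b' x.1 x.2 ≫ b x.1 x.2 :=
      Equiv.sum_comp e (fun x : J => b' x.1 x.2 ≫ b x.1 x.2)
    rw [e1, Fintype.sum_sigma]
    conv_lhs => rw [← Category.id_comp (∑ i, ∑ x, b' i x ≫ b i x)]
    rw [← h, Preadditive.sum_comp]
    refine Finset.sum_congr rfl fun c _ => ?_
    rw [Category.assoc]
    congr 1
    rw [Preadditive.comp_sum, Finset.sum_eq_single (idx c)]
    · rw [Preadditive.comp_sum]
      conv_rhs => rw [hexp _ (f c)]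
      simp_rw [Category.assoc]
    · intro j _ hj
      rw [Preadditive.comp_sum]
      refine Finset.sum_eq_zero fun x _ => ?_
      rw [← Category.assoc, hS.zero _ _ (Ne.symm hj) (f c ≫ b' j x), zero_comp]
    · intro h; exact absurd (Finset.mem_univ _) h
  · intro c
    rw [hcomp, if_pos rfl]
  · intro c c' hcc
    have hne : e c ≠ e c' := fun h => hcc (e.injective h)
    generalize e c = x at hne ⊢
    generalize e c' = y at hne ⊢
    obtain ⟨i, x⟩ := x
    obtain ⟨j, y⟩ := y
    by_cases hij : i = j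
    · subst hij
      rw [hcomp, if_neg]
      rintro rfl
      exact hne rfl
    · exact hS.zero _ _ hij _

end fac

section tensor

variable {D : Type u} [Category.{v} D] [Preadditive D] [Linear ℂ D] [MonoidalCategory D]
  [MonoidalPreadditive D] [MonoidalLinear ℂ D]
variable {κ : Type} [Fintype κ] [DecidableEq κ] {S : κ → D}

lemma Fac.tensor (h : ∀ i j, Fac S (S i ⊗ S j)) {X Y : D} (hX : Fac S X) (hY : Fac S Y) :
    Fac S (X ⊗ Y) := by
  obtain ⟨ι, _, idx, g, f, h1⟩ := hX
  obtain ⟨ι', _, idx', g', f', h2⟩ := hY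
  refine Fac.trans (fun c : ι × ι' => S (idx c.1) ⊗ S (idx' c.2))
    (fun c => g c.1 ⊗ₘ g' c.2) (fun c => f c.1 ⊗ₘ f' c.2) ?_ (fun c => h _ _)
  rw [Fintype.sum_prod_type]
  have h3 : ∀ c c', (g c ⊗ₘ g' c') ≫ (f c ⊗ₘ f' c') = (g c ≫ f c) ⊗ₘ (g' c' ≫ f' c') := by
    intro c c'; simp
  simp_rw [h3, ← tensor_sum, h2, ← sum_tensor, h1]
  simp

end tensor

end Pool.Agent.H60R2.SF
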