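import Pool.Agent.H60R2.SF.LinEnd

/-!
The endofunctor `Hom_R(X, -)` of the category of left `R`-modules attached to a bimodule `X`.
-/

set_option autoImplicit false
set_option linter.unusedSectionVars false

open CategoryTheory CategoryTheory.Limits MonoidalCategory MulOpposite TensorProduct

namespace Pool.Agent.H60R2.SF

universe u

variable {R A : Type u} [Ring R] [Algebra ℂ R] [Ring A] [Algebra ℂ A]

attribute [local instance] endofunctorMonoidalCategory

section LHom

/-- Left linear maps from a bimodule to a left module. -/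
def LH (X : Bimod R) (Z : Type u) [AddCommGroup Z] [Module R Z] : AddSubgroup (X.carrier →+ Z) where
  carrier := {f | ∀ a x, f (X.l a x) = a • f x}
  add_mem' := by
    intro f g hf hg a x
    simp [hf a x, hg a x]
  zero_mem' := by
    intro a x
    simp
  neg_mem' := by
    intro f hf a x
    simp [hf a x]

/-- Left linear maps from a bimodule to a left module. -/
def LHom (X : Bimod R) (Z : Type u) [AddCommGroup Z] [Module R Z] : Type u := LH X Z

variable {X Y : Bimod R} {Z Z' : Type u} [AddCommGroup Z] [Module R Z] [AddCommGroup Z']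
  [Module R Z']

instance : AddCommGroup (LHom X Z) := inferInstanceAs (AddCommGroup (LH X Z))

/-- Application. -/
def LHom.ap (f : LHom X Z) (x : X.carrier) : Z := f.1 x

lemma LHom.ap_l (f : LHom X Z) (a : R) (x : X.carrier) : f.ap (X.l a x) = a • f.ap x := f.2 a x

lemma LHom.ap_add (f : LHom X Z) (x y : X.carrier) : f.ap (x + y) = f.ap x + f.ap y :=
  map_add f.1 x y

lemma LHom.ap_sum (f : LHom X Z) {ι : Type*} (s : Finset ι) (x : ι → X.carrier) :
    f.ap (∑ i ∈ s, x i) = ∑ i ∈ s, f.ap (x i) := map_sum f.1 x s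

lemma LHom.ap_zero (f : LHom X Z) : f.ap 0 = 0 := map_zero f.1

lemma LHom.add_ap (f g : LHom X Z) (x : X.carrier) : (f + g).ap x = f.ap x + g.ap x := rfl

lemma LHom.zero_ap (x : X.carrier) : (0 : LHom X Z).ap x = 0 := rfl

lemma LHom.ext {f g : LHom X Z} (h : ∀ x, f.ap x = g.ap x) : f = g :=
  Subtype.ext (AddMonoidHom.ext h)

/-- Constructor. -/
def LHom.mk (f : X.carrier → Z) (h1 : ∀ x y, f (x + y) = f x + f y)
    (h2 : ∀ a x, f (X.l a x) = a • f x) : LHom X Z := ⟨AddMonoidHom.mk' f h1, h2⟩

lemma LHom.mk_ap (f : X.carrier → Z) (h1 : ∀ x y, f (x + y) = f x + f y)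
    (h2 : ∀ a x, f (X.l a x) = a • f x) (x : X.carrier) : (LHom.mk f h1 h2).ap x = f x := rfl

instance : SMul R (LHom X Z) where
  smul b f := LHom.mk (fun x => f.ap (X.r b x)) (by
    intro x y
    rw [X.r_add, LHom.ap_add]) (by
    intro a x
    rw [← X.comm, LHom.ap_l])

lemma LHom.smul_ap (b : R) (f : LHom X Z) (x : X.carrier) :
    (b • f).ap x = f.ap (X.r b x) := rfl

instance : Module R (LHom X Z) where
  one_smul f := LHom.ext fun x => by
    rw [LHom.smul_ap, X.one_r]
  mul_smul a b f := LHom.ext fun x => by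
    rw [LHom.smul_ap, LHom.smul_ap, LHom.smul_ap, X.mul_r]
  smul_zero a := LHom.ext fun x => rfl
  smul_add a f g := LHom.ext fun x => rfl
  add_smul a b f := LHom.ext fun x => by
    rw [LHom.smul_ap, LHom.add_ap, LHom.smul_ap, LHom.smul_ap, X.add_r, LHom.ap_add]
  zero_smul f := LHom.ext fun x => by
    rw [LHom.smul_ap, X.zero_r, LHom.ap_zero]; rfl

lemma LHom.sum_ap {ι : Type*} (s : Finset ι) (f : ι → LHom X Z) (x : X.carrier) :
    (∑ i ∈ s, f i).ap x = ∑ i ∈ s, (f i).ap x := by
  classical
  induction s using Finset.induction_on with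
  | empty => rfl
  | insert a s ha ih => rw [Finset.sum_insert ha, Finset.sum_insert ha, LHom.add_ap, ih]

/-- Postcomposition. -/
def LHom.post (g : Z →ₗ[R] Z') : LHom X Z →ₗ[R] LHom X Z' where
  toFun f := LHom.mk (fun x => g (f.ap x)) (by
    intro x y
    rw [LHom.ap_add, map_add]) (by
    intro a x
    rw [LHom.ap_l, map_smul])
  map_add' f f' := LHom.ext fun x => by
    simp only [LHom.mk_ap, LHom.add_ap, map_add]
  map_smul' a f := rfl

lemma LHom.post_ap (g : Z →ₗ[R] Z') (f : LHom X Z) (x : X.carrier) :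
    (LHom.post g f).ap x = g (f.ap x) := rfl

lemma LHom.smulC_ap (c : ℂ) (f : LHom X Z) (x : X.carrier) :
    (algebraMap ℂ R c • f).ap x = algebraMap ℂ R c • f.ap x := by
  rw [LHom.smul_ap, ← LHom.ap_l, X.algebraMap_l, X.algebraMap_r]

end LHom

lemma smul_hom_apply {Z Z' : ModuleCat.{u} R} (c : ℂ) (f : Z ⟶ Z') (z : Z) :
    (c • f).hom z = algebraMap ℂ R c • f.hom z := rfl

/-- The functor `Hom_R(X, -)`. -/
def FX (X : Bimod R) : LinEnd R where
  obj :=
    { obj := fun Z => ModuleCat.of R (LHom X Z)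
      map := fun g => ModuleCat.ofHom (LHom.post g.hom)
      map_id := by
        intro Z
        rfl
      map_comp := by
        intro Z Z' Z'' g h
        rfl }
  property := by
    refine ⟨fun Z Z' f g => rfl, fun Z Z' c f => ?_⟩
    ext h
    refine LHom.ext fun x => ?_
    exact (LHom.smulC_ap c (LHom.post f.hom h) x).symm

lemma FX_obj (X : Bimod R) (Z : ModuleCat.{u} R) :
    (FX X).obj.obj Z = ModuleCat.of R (LHom X Z) := rfl

/-- Contravariance in the bimodule. -/
def Fmap {X Y : Bimod R} (w : X.carrier →ₗ[ℂ] Y.carrier) (hw : Bimod.IsHom X Y w) : FX Y ⟶ FX X :=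
  ObjectProperty.homMk
    { app := fun Z => ModuleCat.ofHom
        { toFun := fun f => LHom.mk (fun x => LHom.ap f (w x)) (by
            intro x y
            rw [map_add, LHom.ap_add]) (by
            intro a x
            rw [hw.1, LHom.ap_l])
          map_add' := by
            intro f g
            rfl
          map_smul' := by
            intro a f
            refine LHom.ext fun x => ?_
            change LHom.ap f (Y.r a (w x)) = LHom.ap f (w (X.r a x))
            rw [hw.2] }
      naturality := by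
        intro Z Z' g
        rfl }

lemma Fmap_ap {X Y : Bimod R} (w : X.carrier →ₗ[ℂ] Y.carrier) (hw : Bimod.IsHom X Y w)
    (Z : ModuleCat.{u} R) (f : LHom Y Z) (x : X.carrier) :
    LHom.ap (((Fmap w hw).hom.app Z).hom f) x = f.ap (w x) := rfl

/-- The left module structure of a bimodule. -/
@[instance_reducible]
def leftModule (X : Bimod R) : Module R X.carrier where
  smul a x := X.l a x
  one_smul := X.one_l
  mul_smul := X.mul_l
  smul_zero := X.l_zero
  smul_add := X.l_add
  add_smul := X.add_l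
  zero_smul := X.zero_l

/-- The left module underlying a bimodule. -/
def leftMod (X : Bimod R) : ModuleCat.{u} R :=
  @ModuleCat.of R _ X.carrier _ (leftModule X)

lemma leftMod_smul (X : Bimod R) (a : R) (x : leftMod X) : a • x = X.l a x := rfl

/-- The identity as a left linear map. -/
def idL (X : Bimod R) : LHom X (leftMod X) := LHom.mk (fun x => x) (fun _ _ => rfl) (fun _ _ => rfl)

/-- Right multiplication as a module map. -/
def rmul (X : Bimod R) (b : R) : leftMod X ⟶ leftMod X :=
  ModuleCat.ofHom (R := R) (X := leftMod X) (Y := leftMod X)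
    { toFun := fun x => X.r b x
      map_add' := X.r_add b
      map_smul' := by
        intro a x
        exact (X.comm a b x).symm }

/-- A left linear map `f : X → Z` as a module map from `leftMod X`. -/
def toMor {X : Bimod R} {Z : ModuleCat.{u} R} (f : LHom X Z) : leftMod X ⟶ Z :=
  ModuleCat.ofHom (R := R) (X := leftMod X) (Y := Z)
    { toFun := fun x => f.ap x
      map_add' := f.ap_add
      map_smul' := fun a x => f.ap_l a x }

/-- Naturality applied to elements. -/
lemma nat_ap {F G : LinEnd R} (α : F ⟶ G) {Z Z' : ModuleCat.{u} R} (g : Z ⟶ Z')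
    (f : F.obj.obj Z) : (α.hom.app Z').hom ((F.obj.map g).hom f) =
      (G.obj.map g).hom ((α.hom.app Z).hom f) := by
  have := α.hom.naturality g
  exact congrArg (fun t => t.hom f) this

/-- Yoneda: natural transformations come from bimodule maps. -/
lemma exists_Fmap {X Y : Bimod R} (α : FX X ⟶ FX Y) :
    ∃ (w : Y.carrier →ₗ[ℂ] X.carrier) (hw : Bimod.IsHom Y X w), α = Fmap w hw := by
  let w0 : LHom Y (leftMod X) := (α.hom.app (leftMod X)).hom (idL X)
  have hl : ∀ a y, w0.ap (Y.l a y) = X.l a (w0.ap y) := fun a y => w0.ap_l a y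
  have hr : ∀ b y, w0.ap (Y.r b y) = X.r b (w0.ap y) := by
    intro b y
    have h1 := nat_ap α (rmul X b) (idL X)
    have h2 : ((FX X).obj.map (rmul X b)).hom (idL X) = (b • idL X : LHom X (leftMod X)) := by
      refine LHom.ext fun x => ?_
      rfl
    rw [h2] at h1
    have h3 : (α.hom.app (leftMod X)).hom (b • idL X : LHom X (leftMod X)) =
        (b • w0 : LHom Y (leftMod X)) := map_smul (α.hom.app (leftMod X)).hom b _
    rw [h3] at h1
    have h4 := congrArg (fun t : LHom Y (leftMod X) => t.ap y) h1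
    exact h4
  refine ⟨⟨⟨fun y => w0.ap y, w0.ap_add⟩, ?_⟩, ⟨hl, hr⟩, ?_⟩
  · intro c y
    change w0.ap (c • y) = @HSMul.hSMul ℂ X.carrier X.carrier _ c (w0.ap y)
    rw [← Y.algebraMap_l, hl, X.algebraMap_l]
  · apply LinEnd.ext_app
    intro Z
    ext f
    refine LHom.ext fun y => ?_
    have h1 := nat_ap α (toMor (Z := Z) f) (idL X)
    have h2 : ((FX X).obj.map (toMor (Z := Z) f)).hom (idL X) = f := by
      refine LHom.ext fun x => ?_
      rfl
    rw [h2] at h1
    have h3 := congrArg (fun t : LHom Y Z => t.ap y) h1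
    exact h3

lemma Fmap_comp {X Y W : Bimod R} (w : X.carrier →ₗ[ℂ] Y.carrier) (hw : Bimod.IsHom X Y w)
    (w' : Y.carrier →ₗ[ℂ] W.carrier) (hw' : Bimod.IsHom Y W w')
    (h : Bimod.IsHom X W (w' ∘ₗ w)) : Fmap w' hw' ≫ Fmap w hw = Fmap (w' ∘ₗ w) h := rfl

lemma Fmap_id (X : Bimod R) (h : Bimod.IsHom X X LinearMap.id) :
    Fmap LinearMap.id h = 𝟙 (FX X) := rfl

lemma Fmap_eq_zero {X Y : Bimod R} (w : X.carrier →ₗ[ℂ] Y.carrier) (hw : Bimod.IsHom X Y w)
    (h : w = 0) : Fmap w hw = 0 := by
  subst h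
  apply LinEnd.ext_app
  intro Z
  ext f
  refine LHom.ext fun x => ?_
  exact LHom.ap_zero f

lemma sum_app {F G : LinEnd R} {ι : Type*} (s : Finset ι) (α : ι → (F ⟶ G)) (Z : ModuleCat.{u} R)
    (x : F.obj.obj Z) :
    ((∑ i ∈ s, α i).hom.app Z).hom x = ∑ i ∈ s, ((α i).hom.app Z).hom x := by
  classical
  induction s using Finset.induction_on with
  | empty => rfl
  | insert a s ha ih =>
    rw [Finset.sum_insert ha, Finset.sum_insert ha, ← ih]
    rfl

/-- A Schur list of bimodules gives a Schur list of functors. -/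
lemma schur_FX {κ : Type} (X : κ → Bimod R) (h1 : ∀ i, (X i).IsIrreducible)
    (h2 : ∀ i j, i ≠ j → ∀ f, Bimod.IsHom (X i) (X j) f → f = 0) :
    IsSchur (fun i => FX (X i)) := by
  refine ⟨?_, ?_, ?_⟩
  · intro i α
    obtain ⟨w, hw, rfl⟩ := exists_Fmap α
    obtain ⟨c, hc⟩ := (h1 i).2 w hw
    refine ⟨c, ?_⟩
    apply LinEnd.ext_app
    intro Z
    ext f
    refine LHom.ext fun x => ?_
    refine Eq.trans ?_ (LHom.smulC_ap (X := X i) (Z := Z) c f x).symm
    refine Eq.trans ?_ (LHom.ap_l (X := X i) (Z := Z) f (algebraMap ℂ R c) x)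
    rw [(X i).algebraMap_l, ← hc]
    rfl
  · intro i h
    obtain ⟨x, hx⟩ := (h1 i).1
    apply hx
    exact congrArg (fun t : FX (X i) ⟶ FX (X i) =>
      LHom.ap ((t.hom.app (leftMod (X i))).hom (idL (X i))) x) h
  · intro i j hij α
    obtain ⟨w, hw, rfl⟩ := exists_Fmap α
    exact Fmap_eq_zero w hw (h2 j i (Ne.symm hij) w hw)

/-- Direct sums of bimodules give factorisations of functors. -/
lemma fac_FX {κ : Type} (X : κ → Bimod R) (T : Bimod R) {n : ℕ} (idx : Fin n → κ)
    (h : Bimod.IsDirectSum T (fun b => X (idx b))) : Fac (fun i => FX (X i)) (FX T) := by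
  classical
  obtain ⟨π, hπ, hbij⟩ := h
  let e : T.carrier ≃ₗ[ℂ] (∀ b, (X (idx b)).carrier) :=
    LinearEquiv.ofBijective (LinearMap.pi π) hbij
  have he : ∀ x b, e x b = π b x := fun x b => rfl
  let ι : ∀ b, (X (idx b)).carrier →ₗ[ℂ] T.carrier := fun b =>
    e.symm.toLinearMap ∘ₗ (LinearMap.single ℂ (fun b => (X (idx b)).carrier) b)
  have heι : ∀ b x, e (ι b x) = Pi.single b x := fun b x => e.apply_symm_apply _
  have hι : ∀ b, Bimod.IsHom (X (idx b)) T (ι b) := by
    intro b
    refine ⟨fun a x => ?_, fun a x => ?_⟩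
    · apply e.injective
      funext b'
      rw [heι, he, (hπ b').1, ← he, heι]
      by_cases hb : b' = b
      · subst hb; simp
      · rw [Pi.single_eq_of_ne hb, Pi.single_eq_of_ne hb]
        exact (Bimod.l_zero _ _).symm
    · apply e.injective
      funext b'
      rw [heι, he, (hπ b').2, ← he, heι]
      by_cases hb : b' = b
      · subst hb; simp
      · rw [Pi.single_eq_of_ne hb, Pi.single_eq_of_ne hb]
        exact (Bimod.r_zero _ _).symm
  refine ⟨Fin n, inferInstance, idx, fun b => Fmap (ι b) (hι b), fun b => Fmap (π b) (hπ b), ?_⟩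
  apply LinEnd.ext_app
  intro Z
  ext f
  rw [sum_app]
  refine LHom.ext fun x => ?_
  refine (LHom.sum_ap (X := T) (Z := Z) _ _ x).trans ?_
  change ∑ b, LHom.ap (X := T) (Z := Z) f (ι b (π b x)) = LHom.ap (X := T) (Z := Z) f x
  rw [← LHom.ap_sum]
  congr 1
  apply e.injective
  rw [map_sum]
  funext b'
  rw [Finset.sum_apply]
  simp_rw [heι, ← he]
  rw [Finset.sum_eq_single b']
  · simp
  · intro b _ hb
    exact Pi.single_eq_of_ne (Ne.symm hb) _
  · intro h; exact absurd (Finset.mem_univ _) h

end Pool.Agent.H60R2.SF
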