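import Pool.Agent.H60R2.SF.Bimod
import Pool.Agent.H60R2.SF.Abstract

/-!
The monoidal category of additive, `ℂ`-linear endofunctors of the category of left `R`-modules.
-/

set_option autoImplicit false
set_option linter.unusedSectionVars false

open CategoryTheory CategoryTheory.Limits MonoidalCategory

namespace Pool.Agent.H60R2.SF

universe u

variable (R : Type u) [Ring R] [Algebra ℂ R]

attribute [local instance] endofunctorMonoidalCategory

/-- Additive and `ℂ`-linear endofunctors. -/
def LinProp : ObjectProperty (ModuleCat.{u} R ⥤ ModuleCat.{u} R) := fun F =>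
  (∀ (X Y : ModuleCat.{u} R) (f g : X ⟶ Y), F.map (f + g) = F.map f + F.map g) ∧
  (∀ (X Y : ModuleCat.{u} R) (c : ℂ) (f : X ⟶ Y), F.map (c • f) = c • F.map f)

instance : (LinProp R).IsMonoidal where
  prop_unit := ⟨fun _ _ _ _ => rfl, fun _ _ _ _ => rfl⟩
  prop_tensor F G hF hG := by
    refine ⟨fun X Y f g => ?_, fun X Y c f => ?_⟩
    · change G.map (F.map (f + g)) = G.map (F.map f) + G.map (F.map g)
      rw [hF.1, hG.1]
    · change G.map (F.map (c • f)) = c • G.map (F.map f)
      rw [hF.2, hG.2]

/-- The category of additive, `ℂ`-linear endofunctors of the category of left `R`-modules. -/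
abbrev LinEnd := (LinProp R).FullSubcategory

variable {R}

lemma LinProp.map_zero {F : ModuleCat.{u} R ⥤ ModuleCat.{u} R} (h : LinProp R F)
    (X Y : ModuleCat.{u} R) : F.map (0 : X ⟶ Y) = 0 := by
  have := h.1 X Y 0 0
  rw [add_zero] at this
  exact left_eq_add.mp this

lemma LinEnd.ext_app {F G : LinEnd R} {f g : F ⟶ G} (h : ∀ X, f.hom.app X = g.hom.app X) :
    f = g := by
  ext : 1
  exact NatTrans.ext (funext h)

instance : MonoidalPreadditive (LinEnd R) where
  whiskerLeft_zero := by
    intro X Y Z
    apply LinEnd.ext_app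
    intro W
    rfl
  zero_whiskerRight := by
    intro X Y Z
    apply LinEnd.ext_app
    intro W
    exact X.property.map_zero _ _
  whiskerLeft_add := by
    intro X Y Z f g
    apply LinEnd.ext_app
    intro W
    rfl
  add_whiskerRight := by
    intro X Y Z f g
    apply LinEnd.ext_app
    intro W
    exact X.property.1 _ _ _ _

instance : MonoidalLinear ℂ (LinEnd R) where
  whiskerLeft_smul := by
    intro X Y Z c f
    apply LinEnd.ext_app
    intro W
    rfl
  smul_whiskerRight := by
    intro c Y Z f X
    apply LinEnd.ext_app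
    intro W
    exact X.property.2 _ _ _ _

end Pool.Agent.H60R2.SF
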