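import Mathlib

/-!
Idempotent matrices over a `C*`-algebra have non-negative trace.
-/

set_option autoImplicit false

namespace Pool.Agent.H60R2.SF

section unit

variable {T : Type*} [CStarAlgebra T]

lemma isUnit_one_add_star_mul_self (b : T) : IsUnit (1 + star b * b) := by
  letI : PartialOrder T := CStarAlgebra.spectralOrder T
  haveI : StarOrderedRing T := CStarAlgebra.spectralOrderedRing T
  have h : (-1 : ℝ) ∉ spectrum ℝ (star b * b) := by
    intro h
    have := spectrum_star_mul_self_nonneg (b := b) _ h
    linarith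
  rw [spectrum.notMem_iff] at h
  have h2 : algebraMap ℝ T (-1) - star b * b = -(1 + star b * b) := by
    rw [map_neg, map_one]; abel
  rw [h2, IsUnit.neg_iff] at h
  exact h

/-- Every idempotent has the same trace as a positive element. -/
lemma idem_trace (Tr : T → ℂ) (hTr : ∀ x y, Tr (x * y) = Tr (y * x)) (e : T) (he : e * e = e) :
    ∃ p : T, Tr e = Tr (star p * p) := by
  obtain ⟨z, hz⟩ := isUnit_one_add_star_mul_self (e - star e)
  have hse : star e * star e = star e := by rw [← star_mul, he]
  have hb : star (e - star e) = star e - e := by simp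
  rw [hb] at hz
  have h1 : e * (z : T) = e * star e * e := by
    rw [hz]
    have : e * (1 + (star e - e) * (e - star e)) =
        e + e * star e * e - e * (star e * star e) - (e * e) * e + (e * e) * star e := by
      noncomm_ring
    rw [this, hse, he, he]
    noncomm_ring
  have h2 : (z : T) * e = e * star e * e := by
    rw [hz]
    have : (1 + (star e - e) * (e - star e)) * e =
        e + star e * (e * e) - (star e * star e) * e - e * (e * e) + e * star e * e := by
      noncomm_ring
    rw [this, hse, he, he]
    noncomm_ring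
  have hcomm : Commute e (z : T) := h1.trans h2.symm
  have hcomm' : Commute e ((z⁻¹ : Tˣ) : T) := Commute.units_inv_right hcomm
  have hzs : star (z : T) = z := by
    rw [hz]
    simp
  have hws : star ((z⁻¹ : Tˣ) : T) = ((z⁻¹ : Tˣ) : T) := by
    have h3 : star ((z⁻¹ : Tˣ) : T) * (z : T) = 1 := by
      rw [← hzs, ← star_mul, z.mul_inv, star_one]
    calc star ((z⁻¹ : Tˣ) : T) = star ((z⁻¹ : Tˣ) : T) * ((z : T) * ((z⁻¹ : Tˣ) : T)) := by
          rw [z.mul_inv, mul_one]
      _ = ((z⁻¹ : Tˣ) : T) := by rw [← mul_assoc, h3, one_mul]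
  have hcs : Commute (star e) ((z⁻¹ : Tˣ) : T) := by
    have := hcomm'.star_star
    rw [hws] at this
    exact this
  set w : T := ((z⁻¹ : Tˣ) : T) with hw
  refine ⟨e * star e * w, ?_⟩
  have hwz : w * (z : T) = 1 := z.inv_mul
  have e1 : Tr e = Tr (e * star e * w) := by
    calc Tr e = Tr (w * ((z : T) * e)) := by rw [← mul_assoc, hwz, one_mul]
      _ = Tr (w * (e * star e) * e) := by rw [h2, ← mul_assoc]
      _ = Tr (e * (w * (e * star e))) := by rw [hTr]
      _ = Tr (e * star e * w) := by
          congr 1
          rw [← mul_assoc, hcomm'.eq, mul_assoc, ← mul_assoc e e, he, ← mul_assoc,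
            ← hcomm'.eq, mul_assoc, ← hcs.eq, mul_assoc]
  rw [e1]
  congr 1
  have hstar : star (e * star e * w) = e * star e * w := by
    rw [star_mul, star_mul, star_star, hws, ← mul_assoc, ← hcomm'.eq, mul_assoc, ← hcs.eq,
      ← mul_assoc]
  rw [hstar]
  have hzw : (z : T) * w = 1 := z.mul_inv
  calc e * star e * w = e * star e * (w * ((z : T) * w)) := by rw [hzw, mul_one]
    _ = (e * star e) * w * (z : T) * w := by noncomm_ring
    _ = e * (star e * w) * (z : T) * w := by noncomm_ring
    _ = e * (w * star e) * (z : T) * w := by rw [hcs.eq]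
    _ = (e * w) * (star e * (z : T)) * w := by noncomm_ring
    _ = (w * e) * ((z : T) * star e) * w := by
        have hcz : star e * (z : T) = (z : T) * star e := by
          have := congrArg star hcomm.eq
          rw [star_mul, star_mul, hzs] at this
          exact this.symm
        rw [hcomm'.eq, hcz]
    _ = w * (e * (z : T)) * star e * w := by noncomm_ring
    _ = w * (e * star e * e) * star e * w := by rw [h1]
    _ = w * e * (star e * e * star e) * w := by noncomm_ring
    _ = e * w * (star e * e * star e) * w := by rw [hcomm'.eq]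
    _ = e * (w * star e) * (e * star e) * w := by noncomm_ring
    _ = e * (star e * w) * (e * star e) * w := by rw [hcs.eq]
    _ = e * star e * w * (e * star e * w) := by noncomm_ring

end unit

/-- **Idempotent matrices over a `C*`-algebra have non-negative trace** for every positive tracial
functional. -/
theorem pos_trace {R : Type*} [CStarAlgebra R] (τ : R →ₗ[ℂ] ℂ)
    (hτ : ∀ a b, τ (a * b) = τ (b * a))
    (hpos : ∀ a, ∃ b : ℝ, 0 ≤ b ∧ τ (star a * a) = b)
    (ι : Type) [Fintype ι] (e : Matrix ι ι R) (he : e * e = e) :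
    ∃ b : ℝ, 0 ≤ b ∧ ∑ i, τ (e i i) = (b : ℂ) := by
  classical
  letI : PartialOrder R := CStarAlgebra.spectralOrder R
  haveI : StarOrderedRing R := CStarAlgebra.spectralOrderedRing R
  let Tr : CStarMatrix ι ι R → ℂ := fun M => ∑ i, τ (M i i)
  have hTr : ∀ x y : CStarMatrix ι ι R, Tr (x * y) = Tr (y * x) := by
    intro x y
    change ∑ i, τ ((x * y) i i) = ∑ i, τ ((y * x) i i)
    simp_rw [CStarMatrix.mul_apply, map_sum]
    rw [Finset.sum_comm]
    exact Finset.sum_congr rfl fun i _ => Finset.sum_congr rfl fun j _ => hτ _ _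
  obtain ⟨p, hp⟩ := idem_trace (T := CStarMatrix ι ι R) Tr hTr (CStarMatrix.ofMatrix e) (by
    exact he)
  have h1 : Tr (star p * p) = ∑ i, ∑ k, τ (star (p k i) * p k i) := by
    change ∑ i, τ ((star p * p) i i) = _
    simp_rw [CStarMatrix.mul_apply, map_sum]
    rfl
  choose b hb0 hb using fun a : R => hpos a
  refine ⟨∑ i, ∑ k, b (p k i), Finset.sum_nonneg fun i _ => Finset.sum_nonneg fun k _ => hb0 _, ?_⟩
  have h2 : ∑ i, τ (e i i) = Tr (CStarMatrix.ofMatrix e) := rfl
  rw [h2, hp, h1]
  push_cast
  exact Finset.sum_congr rfl fun i _ => Finset.sum_congr rfl fun k _ => hb _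

end Pool.Agent.H60R2.SF
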