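import Pool.Agent.Helper781.Fusion.Rot

/-!
Semisimple `ℂ`-linear categories given by a Schur list (no abelian structure needed).
This adapts `Pool.Agent.Helper781.Fusion.Decomp` from abelian categories to preadditive ones.
-/

set_option autoImplicit false
set_option linter.unusedSectionVars false

open CategoryTheory CategoryTheory.Limits MonoidalCategory

namespace Pool.Agent.H60R2.SF

open Pool.Agent.Helper781.Fusion (BaseData PathData)

universe v u

section decomp

variable {C : Type u} [Category.{v} C] [Preadditive C] [Linear ℂ C]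

/-- A list of pairwise disjoint objects with scalar endomorphisms. -/
structure IsSchur {κ : Type} (S : κ → C) : Prop where
  scalar : ∀ i (f : S i ⟶ S i), ∃ c : ℂ, f = c • 𝟙 (S i)
  ne : ∀ i, 𝟙 (S i) ≠ 0
  zero : ∀ i j, i ≠ j → ∀ f : S i ⟶ S j, f = 0

/-- Decomposition of an object into members of the list `S`. -/
structure Dec {κ : Type} (S : κ → C) (Z : C) where
  n : ℕ
  idx : Fin n → κ
  inc : ∀ b, S (idx b) ⟶ Z
  prj : ∀ b, Z ⟶ S (idx b)
  sum : ∑ b, prj b ≫ inc b = 𝟙 Z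
  same : ∀ b, inc b ≫ prj b = 𝟙 (S (idx b))
  diff : ∀ b b', b ≠ b' → inc b ≫ prj b' = 0

variable {κ : Type} [Fintype κ] [DecidableEq κ] {S : κ → C}

lemma IsSchur.ne_zero_iso (hS : IsSchur S) {i : κ} {f : S i ⟶ S i} (hf : f ≠ 0) :
    ∃ g : S i ⟶ S i, f ≫ g = 𝟙 _ ∧ g ≫ f = 𝟙 _ := by
  obtain ⟨c, hc⟩ := hS.scalar i f
  have hc0 : c ≠ 0 := by
    rintro rfl
    exact hf (by rw [hc, zero_smul])
  refine ⟨c⁻¹ • 𝟙 _, ?_, ?_⟩
  · rw [hc]
    simp only [Linear.comp_smul, Linear.smul_comp, Category.comp_id, smul_smul]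
    rw [inv_mul_cancel₀ hc0, one_smul]
  · rw [hc]
    simp only [Linear.comp_smul, Linear.smul_comp, Category.comp_id, smul_smul]
    rw [mul_inv_cancel₀ hc0, one_smul]

lemma finite_hom_simple (hS : IsSchur S) (i j : κ) : FiniteDimensional ℂ (S i ⟶ S j) := by
  by_cases h : i = j
  · subst h
    refine FiniteDimensional.of_surjective (LinearMap.toSpanSingleton ℂ (S i ⟶ S i) (𝟙 (S i))) ?_
    intro f
    obtain ⟨c, hc⟩ := hS.scalar i f
    exact ⟨c, by rw [hc]; simp⟩
  · have : Subsingleton (S i ⟶ S j) := ⟨fun a b => by rw [hS.zero i j h a, hS.zero i j h b]⟩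
    infer_instance

lemma finrank_simple (hS : IsSchur S) (i j : κ) :
    Module.finrank ℂ (S i ⟶ S j) = if i = j then 1 else 0 := by
  split_ifs with h
  · subst h
    refine finrank_eq_one (𝟙 (S i)) (hS.ne i) ?_
    intro f
    obtain ⟨c, hc⟩ := hS.scalar i f
    exact ⟨c, hc.symm⟩
  · have : Subsingleton (S i ⟶ S j) := ⟨fun a b => by rw [hS.zero i j h a, hS.zero i j h b]⟩
    exact Module.finrank_zero_of_subsingleton

/-- Hom spaces between decomposable objects are finite-dimensional. -/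
lemma finite_hom (hS : IsSchur S) {X Y : C} (dX : Dec S X) (dY : Dec S Y) :
    FiniteDimensional ℂ (X ⟶ Y) := by
  have := finite_hom_simple hS
  let f : (X ⟶ Y) →ₗ[ℂ] (∀ a b, (S (dX.idx a) ⟶ S (dY.idx b))) :=
    { toFun := fun g a b => dX.inc a ≫ g ≫ dY.prj b
      map_add' := by intro g g'; ext a b; simp
      map_smul' := by intro c g; ext a b; simp }
  refine FiniteDimensional.of_injective f ?_
  intro g g' h
  have h1 : ∀ g : X ⟶ Y, g = ∑ a, ∑ b, dX.prj a ≫ (dX.inc a ≫ g ≫ dY.prj b) ≫ dY.inc b := by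
    intro g
    have e1 : ∀ a, ∑ b, dX.prj a ≫ (dX.inc a ≫ g ≫ dY.prj b) ≫ dY.inc b =
        (dX.prj a ≫ dX.inc a) ≫ g := by
      intro a
      have e2 : ∀ b, dX.prj a ≫ (dX.inc a ≫ g ≫ dY.prj b) ≫ dY.inc b =
          ((dX.prj a ≫ dX.inc a) ≫ g) ≫ (dY.prj b ≫ dY.inc b) := by
        intro b; simp only [Category.assoc]
      simp_rw [e2]
      rw [← Preadditive.comp_sum, dY.sum, Category.comp_id]
    simp_rw [e1]
    rw [← Preadditive.sum_comp, dX.sum, Category.id_comp]
  rw [h1 g, h1 g']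
  refine Finset.sum_congr rfl fun a _ => Finset.sum_congr rfl fun b _ => ?_
  have := congrFun (congrFun h a) b
  change dX.inc a ≫ g ≫ dY.prj b = dX.inc a ≫ g' ≫ dY.prj b at this
  rw [this]

/-- Hom spaces into a decomposed object under an additive functor. -/
lemma finrank_hom_dec (hfd : ∀ X Y : C, FiniteDimensional ℂ (X ⟶ Y)) {Z : C} (d : Dec S Z)
    (H : C ⥤ C) [H.Additive] (X : C) :
    Module.finrank ℂ (X ⟶ H.obj Z) = ∑ b, Module.finrank ℂ (X ⟶ H.obj (S (d.idx b))) := by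
  let e : (X ⟶ H.obj Z) ≃ₗ[ℂ] (∀ b, (X ⟶ H.obj (S (d.idx b)))) :=
    { toFun := fun g b => g ≫ H.map (d.prj b)
      map_add' := by intro g g'; ext b; simp
      map_smul' := by intro a g; ext b; simp
      invFun := fun f => ∑ b, f b ≫ H.map (d.inc b)
      left_inv := by
        intro g
        simp only [Category.assoc]
        simp_rw [← H.map_comp]
        rw [← Preadditive.comp_sum, ← H.map_sum, d.sum, H.map_id, Category.comp_id]
      right_inv := by
        intro f
        ext b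
        simp only
        rw [Preadditive.sum_comp, Finset.sum_eq_single b]
        · rw [Category.assoc, ← H.map_comp, d.same, H.map_id, Category.comp_id]
        · intro b' _ hb
          rw [Category.assoc, ← H.map_comp, d.diff b' b hb, H.map_zero, comp_zero]
        · intro h; exact absurd (Finset.mem_univ _) h }
  have := hfd
  rw [e.finrank_eq, Module.finrank_pi_fintype]

lemma card_idx (hfd : ∀ X Y : C, FiniteDimensional ℂ (X ⟶ Y)) (hS : IsSchur S) {Z : C}
    (d : Dec S Z) (i : κ) :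
    (Finset.univ.filter fun b => d.idx b = i).card = Module.finrank ℂ (S i ⟶ Z) := by
  have h := finrank_hom_dec hfd d (𝟭 C) (S i)
  simp only [Functor.id_obj] at h
  rw [h]
  simp_rw [finrank_simple hS]
  rw [Finset.card_filter]
  exact Finset.sum_congr rfl fun b _ => by simp only [eq_comm]

/-- Sums over a decomposition. -/
lemma sum_dec (hfd : ∀ X Y : C, FiniteDimensional ℂ (X ⟶ Y)) (hS : IsSchur S) {Z : C}
    (d : Dec S Z) {A : Type*} [AddCommMonoid A]
    (g : κ → A) : ∑ b, g (d.idx b) = ∑ i, Module.finrank ℂ (S i ⟶ Z) • g i := by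
  rw [← Finset.sum_fiberwise_of_maps_to (g := d.idx) (t := Finset.univ) (fun _ _ => Finset.mem_univ _)]
  refine Finset.sum_congr rfl fun i _ => ?_
  rw [← card_idx hfd hS d i, ← Finset.sum_const]
  refine Finset.sum_congr rfl fun b hb => ?_
  rw [(Finset.mem_filter.mp hb).2]

lemma finrank_expand (hfd : ∀ X Y : C, FiniteDimensional ℂ (X ⟶ Y)) (hS : IsSchur S) {Z : C}
    (d : Dec S Z) (H : C ⥤ C) [H.Additive]
    (X : C) : Module.finrank ℂ (X ⟶ H.obj Z) =
      ∑ i, Module.finrank ℂ (S i ⟶ Z) * Module.finrank ℂ (X ⟶ H.obj (S i)) := by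
  rw [finrank_hom_dec hfd d H X, sum_dec hfd hS d (fun i => Module.finrank ℂ (X ⟶ H.obj (S i)))]
  simp

/-- The scalar of an endomorphism of a simple object. -/
lemma exists_scalar (hS : IsSchur S) (i : κ) : ∃ sc : (S i ⟶ S i) →ₗ[ℂ] ℂ,
    (∀ f, f = sc f • 𝟙 (S i)) ∧ sc (𝟙 (S i)) = 1 := by
  have hne : (𝟙 (S i) : S i ⟶ S i) ≠ 0 := hS.ne i
  have h : ∀ f : S i ⟶ S i, ∃ c : ℂ, c • 𝟙 (S i) = f := fun f => by
    obtain ⟨c, hc⟩ := hS.scalar i f
    exact ⟨c, hc.symm⟩
  choose sc hsc using h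
  have hinj : ∀ c c' : ℂ, c • 𝟙 (S i) = c' • 𝟙 (S i) → c = c' := fun c c' h =>
    smul_left_injective ℂ hne h
  refine ⟨{ toFun := sc, map_add' := ?_, map_smul' := ?_ }, ?_, ?_⟩
  · intro f g
    apply hinj
    rw [hsc, add_smul, hsc, hsc]
  · intro a f
    apply hinj
    rw [hsc, RingHom.id_apply, smul_assoc, hsc]
  · intro f
    exact (hsc f).symm
  · apply hinj
    simp only [LinearMap.coe_mk, AddHom.coe_mk]
    rw [hsc, one_smul]

/-- A direct sum of all the simple objects. -/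
structure SumObj (S : κ → C) where
  P : C
  π : ∀ i, P ⟶ S i
  ι : ∀ i, S i ⟶ P
  h1 : ∀ i, ι i ≫ π i = 𝟙 (S i)
  h2 : ∀ i j, i ≠ j → ι i ≫ π j = 0
  h3 : ∑ i, π i ≫ ι i = 𝟙 P

/-- The base data of a semisimple category. -/
lemma exists_base (hS : IsSchur S) (dec : ∀ Z, Dec S Z) (Q : SumObj S) :
    ∃ (B : BaseData Q.P κ), (∀ i, Q.π i ≫ Q.ι i = B.q i) := by
  obtain ⟨P, π, ι, h1, h2, h3⟩ := Q
  have hsc : ∀ i, ∃ sc : (S i ⟶ S i) →ₗ[ℂ] ℂ, (∀ f, f = sc f • 𝟙 (S i)) ∧ sc (𝟙 (S i)) = 1 := by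
    intro i
    exact exists_scalar hS i
  choose sc hsc1 hsc2 using hsc
  have hq : ∀ i j, (π i ≫ ι i) ≫ (π j ≫ ι j) = if i = j then π i ≫ ι i else 0 := by
    intro i j
    rw [Category.assoc, ← Category.assoc (ι i)]
    split_ifs with h
    · subst h; rw [h1, Category.id_comp]
    · rw [h2 i j h]; simp
  let coef : κ → ((P ⟶ P) →ₗ[ℂ] ℂ) := fun i =>
    (sc i).comp ((Linear.leftComp ℂ (S i) (ι i)).comp (Linear.rightComp ℂ P (π i)))
  have hcoef : ∀ i a, coef i a = sc i (ι i ≫ a ≫ π i) := fun i a => rfl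
  refine ⟨⟨fun i => π i ≫ ι i, coef, hq, h3, ?_, ?_, fun Z => (dec Z).n,
    fun Z b => π _ ≫ (dec Z).inc b, fun Z b => (dec Z).prj b ≫ ι _, ?_⟩, fun i => rfl⟩
  · intro i
    rw [hcoef, Category.assoc, h1, Category.comp_id, h1, hsc2]
  · intro a
    have e1 : a = (∑ i, π i ≫ ι i) ≫ a ≫ (∑ j, π j ≫ ι j) := by rw [h3]; simp
    conv_lhs => rw [e1]
    rw [Preadditive.sum_comp]
    refine Finset.sum_congr rfl fun i _ => ?_
    rw [Preadditive.comp_sum, Preadditive.comp_sum, Finset.sum_eq_single i]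
    · rw [hcoef]
      have e2 : (π i ≫ ι i) ≫ a ≫ π i ≫ ι i = π i ≫ (ι i ≫ a ≫ π i) ≫ ι i := by
        simp only [Category.assoc]
      rw [e2]
      conv_lhs => rw [hsc1 i (ι i ≫ a ≫ π i)]
      simp
    · intro j _ hj
      have e2 : (π i ≫ ι i) ≫ a ≫ π j ≫ ι j = π i ≫ (ι i ≫ a ≫ π j) ≫ ι j := by
        simp only [Category.assoc]
      rw [e2, hS.zero i j (Ne.symm hj) (ι i ≫ a ≫ π j)]
      simp
    · intro h; exact absurd (Finset.mem_univ _) h
  · intro Z
    have e3 : ∀ b, ((dec Z).prj b ≫ ι ((dec Z).idx b)) ≫ π ((dec Z).idx b) ≫ (dec Z).inc b =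
        (dec Z).prj b ≫ (dec Z).inc b := by
      intro b
      rw [Category.assoc, ← Category.assoc (ι _), h1, Category.id_comp]
    exact (Finset.sum_congr rfl fun b _ => e3 b).trans (dec Z).sum

/-- The path data of an additive functor on a semisimple category. -/
noncomputable def pathData {P : C} (B : BaseData P κ) (π : ∀ i, P ⟶ S i)
    (ι : ∀ i, S i ⟶ P) (hq : ∀ i, π i ≫ ι i = B.q i) (h1 : ∀ i, ι i ≫ π i = 𝟙 (S i))
    (h2 : ∀ i j, i ≠ j → ι i ≫ π j = 0) (h3 : ∑ i, π i ≫ ι i = 𝟙 P) (F : C ⥤ C) [F.Additive]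
    (d : ∀ j, Dec S (F.obj (S j))) : PathData B F (Σ j, Fin (d j).n) where
  s := fun e => (d e.1).idx e.2
  t := fun e => e.1
  m := fun e => π _ ≫ (d e.1).inc e.2 ≫ F.map (ι e.1)
  m' := fun e => F.map (π e.1) ≫ (d e.1).prj e.2 ≫ ι _
  sum := by
    rw [Fintype.sum_sigma]
    have e1 : ∀ (j : κ) (b : Fin (d j).n), (F.map (π j) ≫ (d j).prj b ≫ ι ((d j).idx b)) ≫
        π ((d j).idx b) ≫ (d j).inc b ≫ F.map (ι j) =
        F.map (π j) ≫ ((d j).prj b ≫ (d j).inc b) ≫ F.map (ι j) := by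
      intro j b
      simp only [Category.assoc]
      rw [← Category.assoc (ι _), h1, Category.id_comp]
    simp_rw [e1]
    simp_rw [← Preadditive.comp_sum, ← Preadditive.sum_comp, (d _).sum, Category.id_comp,
      ← F.map_comp]
    rw [← F.map_sum, h3, F.map_id]
  orth := by
    rintro ⟨j, b⟩ ⟨j', b'⟩
    simp only [Category.assoc]
    rw [← Category.assoc (F.map (ι j)), ← F.map_comp]
    by_cases hj : j = j'
    · subst hj
      rw [h1, F.map_id, Category.id_comp, ← Category.assoc ((d j).inc b)]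
      by_cases hb : b = b'
      · subst hb
        rw [(d j).same, Category.id_comp, if_pos rfl, hq]
      · rw [(d j).diff b b' hb, if_neg (by simpa using hb)]
        simp
    · rw [h2 j j' hj, if_neg (by simp [hj])]
      simp
  q_m := by
    rintro ⟨j, b⟩
    simp only
    rw [← hq, Category.assoc, ← Category.assoc (ι _), h1, Category.id_comp]
  m_q := by
    rintro ⟨j, b⟩
    simp only
    rw [← hq]
    simp only [Category.assoc]
    rw [← F.map_comp, ← Category.assoc (ι j), h1, Category.id_comp]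

end decomp

end Pool.Agent.H60R2.SF
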