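import Pool.Agent.H60R2.SF.Func

/-!
`Hom_R(A ⊗_R X, -) = Hom_R(X, Hom_R(A, -))`, the unit, tensor powers.
-/

set_option autoImplicit false
set_option linter.unusedSectionVars false

open CategoryTheory CategoryTheory.Limits MonoidalCategory MulOpposite TensorProduct

namespace Pool.Agent.H60R2.SF

universe u

variable {R A : Type u} [Ring R] [Algebra ℂ R] [Ring A] [Algebra ℂ A]

attribute [local instance] endofunctorMonoidalCategory

/-- The algebra `A` as a bimodule over `R` through `φ : R → A`. -/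
def extB (φ : R →ₐ[ℂ] A) : Bimod R where
  carrier := A
  l a x := φ a * x
  r a x := x * φ a
  l_add a := mul_add (φ a)
  r_add a x y := add_mul x y (φ a)
  add_l a b x := by rw [map_add, add_mul]
  add_r a b x := by rw [map_add, mul_add]
  smul_l c a x := by rw [map_smul, smul_mul_assoc]
  smul_r c a x := by rw [map_smul, mul_smul_comm]
  one_l x := by rw [map_one, one_mul]
  one_r x := by rw [map_one, mul_one]
  mul_l a b x := by rw [map_mul, mul_assoc]
  mul_r a b x := by rw [map_mul, mul_assoc]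
  comm a b x := (mul_assoc (φ a) x (φ b)).symm

lemma extB_l (φ : R →ₐ[ℂ] A) (s : R) (a : A) : (extB φ).l s a = φ s * a := rfl

lemma extB_r (φ : R →ₐ[ℂ] A) (s : R) (a : A) : (extB φ).r s a = a * φ s := rfl

lemma self_l (s a : R) : (Bimod.self R).l s a = s * a := rfl

lemma self_r (s a : R) : (Bimod.self R).r s a = a * s := rfl

/-- `Hom_R(R, -)` is the identity functor. -/
noncomputable def unitIso : FX (Bimod.self R) ≅ 𝟙_ (LinEnd R) :=
  (LinProp R).isoMk (NatIso.ofComponents (fun Z => LinearEquiv.toModuleIso (R := R)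
    (X₁ := LHom (Bimod.self R) Z) (X₂ := Z)
    { toFun := fun f => f.ap (1 : R)
      map_add' := fun f g => rfl
      map_smul' := by
        intro s f
        have h1 : (s • f).ap (1 : R) = f.ap ((1 : R) * s) := rfl
        have h2 : f.ap (s * (1 : R)) = s • f.ap (1 : R) := f.ap_l s (1 : R)
        rw [h1, one_mul]
        rw [mul_one] at h2
        exact h2
      invFun := fun z => LHom.mk (X := Bimod.self R) (fun s : R => s • z)
        (fun s t : R => add_smul s t z) (fun s (t : R) => mul_smul s t z)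
      left_inv := by
        intro f
        refine LHom.ext fun (s : R) => ?_
        have h2 : f.ap (s * (1 : R) : R) = s • f.ap (1 : R) := f.ap_l s (1 : R)
        rw [mul_one] at h2
        exact h2.symm
      right_inv := by
        intro z
        exact one_smul R z }) (by
    intro Z Z' g
    rfl))

section tens

variable (φ : R →ₐ[ℂ] A) (X : Bimod R)

lemma tens_ind {p : (Bimod.tens φ X).carrier → Prop} (h0 : p 0)
    (h1 : ∀ a x, p (Bimod.tmk φ X a x)) (h2 : ∀ y z, p y → p z → p (y + z)) (z) : p z :=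
  Bimod.tens_induction φ X h0 h1 h2 z

variable {Z : Type u} [AddCommGroup Z] [Module R Z]

/-- Currying. -/
def curryL (f : LHom (Bimod.tens φ X) Z) : LHom X (LHom (extB φ) Z) :=
  LHom.mk (fun x => LHom.mk (fun a : A => f.ap (Bimod.tmk φ X a x)) (by
    intro a b
    exact (congrArg f.ap (Bimod.tmk_add_left φ X a b x)).trans (f.ap_add _ _)) (by
    intro s a
    exact f.ap_l s (Bimod.tmk φ X a x))) (by
    intro x y
    refine LHom.ext fun a => ?_
    exact (congrArg f.ap (Bimod.tmk_add_right φ X a x y)).trans (f.ap_add _ _)) (by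
    intro s x
    refine LHom.ext fun a => ?_
    exact (congrArg f.ap (Bimod.tmk_bal φ X a s x)).symm)

lemma curryL_ap (f : LHom (Bimod.tens φ X) Z) (x : X.carrier) (a : A) :
    ((curryL φ X f).ap x).ap a = f.ap (Bimod.tmk φ X a x) := rfl

/-- The linear map on `A ⊗ X` attached to a curried map. -/
lemma exists_uncurry (g : LHom X (LHom (extB φ) Z)) :
    ∃ f : LHom (Bimod.tens φ X) Z, ∀ a x, f.ap (Bimod.tmk φ X a x) = (g.ap x).ap a := by
  letI : Module ℂ Z := Module.compHom Z (algebraMap ℂ R)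
  have hc : ∀ (c : ℂ) (z : Z), c • z = algebraMap ℂ R c • z := fun _ _ => rfl
  let B : A →ₗ[ℂ] X.carrier →ₗ[ℂ] Z := LinearMap.mk₂ ℂ (fun a x => (g.ap x).ap a)
    (fun a b x => (g.ap x).ap_add a b)
    (fun c a x => by
      rw [hc, ← (g.ap x).ap_l, (extB φ).algebraMap_l]
      rfl)
    (fun a x y => by rw [g.ap_add]; rfl)
    (fun c a x => by
      rw [← X.algebraMap_l, g.ap_l, LHom.smulC_ap, hc])
  have hB : ∀ a x, B a x = (g.ap x).ap a := fun a x => rfl
  let L : (A ⊗[ℂ] X.carrier) →ₗ[ℂ] Z := TensorProduct.lift B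
  have hL : ∀ a x, L (a ⊗ₜ x) = (g.ap x).ap a := fun a x => by
    rw [TensorProduct.lift.tmul, hB]
  have hrel : Bimod.rel φ X ≤ LinearMap.ker L := by
    rw [Bimod.rel, Submodule.span_le]
    rintro _ ⟨a, s, x, rfl⟩
    rw [SetLike.mem_coe, LinearMap.mem_ker, map_sub, hL, hL, g.ap_l, LHom.smul_ap, sub_eq_zero]
    rfl
  let L' : Bimod.TC φ X →ₗ[ℂ] Z := (Bimod.rel φ X).liftQ L hrel
  have hL' : ∀ a x, L' (Bimod.tmk φ X a x) = (g.ap x).ap a := fun a x => hL a x
  refine ⟨LHom.mk (fun t => L' t) (fun t t' => map_add L' t t') ?_, hL'⟩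
  intro s t
  refine tens_ind φ X (p := fun t => L' ((Bimod.tens φ X).l s t) = s • L' t) ?_ ?_ ?_ t
  · rw [(Bimod.tens φ X).l_zero]
    exact (map_zero L').trans ((smul_zero s).symm.trans (congrArg (fun z => s • z) (map_zero L').symm))
  · intro a x
    change L' (Bimod.tmk φ X (φ s * a) x) = s • L' (Bimod.tmk φ X a x)
    rw [hL', hL']
    exact (g.ap x).ap_l s a
  · intro y z hy hz
    rw [(Bimod.tens φ X).l_add]
    exact (map_add L' _ _).trans ((congrArg₂ (· + ·) hy hz).trans
      ((smul_add s _ _).symm.trans (congrArg (fun z => s • z) (map_add L' y z).symm)))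

lemma curryL_bijective : Function.Bijective (curryL φ X (Z := Z)) := by
  constructor
  · intro f f' h
    refine LHom.ext fun t => ?_
    refine tens_ind φ X (p := fun t => f.ap t = f'.ap t) ?_ ?_ ?_ t
    · rw [LHom.ap_zero, LHom.ap_zero]
    · intro a x
      rw [← curryL_ap, ← curryL_ap, h]
    · intro y z hy hz
      rw [LHom.ap_add, LHom.ap_add, hy, hz]
  · intro g
    obtain ⟨f, hf⟩ := exists_uncurry φ X g
    exact ⟨f, LHom.ext fun x => LHom.ext fun a => hf a x⟩

/-- `Hom_R(A ⊗_R X, -) = Hom_R(X, Hom_R(A, -))`. -/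
noncomputable def tensIso : FX (Bimod.tens φ X) ≅ FX (extB φ) ⊗ FX X :=
  (LinProp R).isoMk (NatIso.ofComponents (fun Z => LinearEquiv.toModuleIso (R := R)
    (X₁ := LHom (Bimod.tens φ X) Z) (X₂ := LHom X (LHom (extB φ) Z))
    (LinearEquiv.ofBijective
      { toFun := curryL φ X
        map_add' := fun f g => rfl
        map_smul' := fun s f => rfl }
      (curryL_bijective φ X))) (by
    intro Z Z' g
    rfl))

end tens

/-- Tensor powers of the extension correspond to powers of the functor. -/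
lemma powIso (φ : R →ₐ[ℂ] A) (k : ℕ) : Nonempty (FX (Bimod.pow φ k) ≅ ppow (FX (extB φ)) k) := by
  induction k with
  | zero => exact ⟨unitIso⟩
  | succ k ih =>
    obtain ⟨e⟩ := ih
    exact ⟨tensIso φ (Bimod.pow φ k) ≪≫ whiskerLeftIso (FX (extB φ)) e⟩

/-- Endomorphisms of the identity functor. -/
lemma end_unit (hc : ∀ z : R, (∀ x, z * x = x * z) → ∃ c : ℂ, z = algebraMap ℂ R c)
    (f : 𝟙_ (LinEnd R) ⟶ 𝟙_ (LinEnd R)) : ∃ c : ℂ, f = c • 𝟙 _ := by
  let T : ModuleCat.{u} R := ModuleCat.of R R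
  let z : R := (f.hom.app T).hom (1 : R)
  have hz : ∀ {Z : ModuleCat.{u} R} (m : Z), (f.hom.app Z).hom m = z • m := by
    intro Z m
    let g : T ⟶ Z := ModuleCat.ofHom (R := R) (X := R) (Y := Z) (LinearMap.toSpanSingleton R Z m)
    have h1 := nat_ap f g (1 : R)
    have h2 : g.hom (1 : R) = m := by
      change (LinearMap.toSpanSingleton R Z m) 1 = m
      simp
    change (f.hom.app Z).hom (g.hom (1 : R)) = g.hom z at h1
    rw [h2] at h1
    rw [h1]
    change (LinearMap.toSpanSingleton R Z m) z = z • m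
    simp
  have hcen : ∀ x : R, z * x = x * z := by
    intro x
    have h1 : (f.hom.app T).hom (x : R) = z • x := hz (Z := T) x
    have h2 : (f.hom.app T).hom (x : R) = x • (f.hom.app T).hom (1 : R) := by
      have := map_smul (f.hom.app T).hom x (1 : R)
      have h3 : (x • (1 : R) : R) = x := by simp
      change (f.hom.app T).hom (x • (1 : R) : R) = _ at this
      rw [h3] at this
      exact this
    exact h1.symm.trans h2
  obtain ⟨c, hcz⟩ := hc z hcen
  refine ⟨c, ?_⟩
  apply LinEnd.ext_app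
  intro Z
  ext m
  rw [hz, hcz]
  rfl

lemma unit_ne [Nontrivial R] : 𝟙 (𝟙_ (LinEnd R)) ≠ 0 := by
  intro h
  have h1 := congrArg (fun t : 𝟙_ (LinEnd R) ⟶ 𝟙_ (LinEnd R) =>
    (t.hom.app (ModuleCat.of R R)).hom (1 : R)) h
  exact one_ne_zero (α := R) h1

end Pool.Agent.H60R2.SF
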