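import Pool.Agent.H60R2.SF.Bimod

/-!
II₁ factors, the trace preserving conditional expectation and the Jones index.
-/

set_option autoImplicit false

namespace Pool.Agent.H60R2.SF

universe u

section

variable {R A : Type u} [Ring R] [StarRing R] [Algebra ℂ R] [Ring A] [StarRing A] [Algebra ℂ A]

/-- `τ` is a faithful tracial state. -/
structure IsTracialState (τ : A →ₗ[ℂ] ℂ) : Prop where
  one : τ 1 = 1
  comm : ∀ x y, τ (x * y) = τ (y * x)
  nonneg : ∀ x, ∃ b : ℝ, 0 ≤ b ∧ τ (star x * x) = b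
  faithful : ∀ x, τ (star x * x) = 0 → x = 0

/-- For an inclusion `φ : R → A`, `E` is the conditional expectation of `A` onto `R` which
preserves `τ`. -/
structure IsCondExp (φ : R →⋆ₐ[ℂ] A) (τ : A →ₗ[ℂ] ℂ) (E : A →ₗ[ℂ] R) : Prop where
  id : ∀ n, E (φ n) = n
  left : ∀ n x, E (φ n * x) = n * E x
  right : ∀ x n, E (x * φ n) = E x * n
  star : ∀ x, E (star x) = star (E x)
  trace : ∀ x, τ (φ (E x)) = τ x

/-- `d` is the Jones index `[A : R]` of the inclusion `φ : R → A`: for the conditional expectation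
`E` of `A` onto `R` preserving the trace and a finite Pimsner-Popa basis `m₁, …, mₙ` of `A` over
`R`, i.e. `x = ∑ mᵢ E(mᵢ* x)` for all `x` in `A`, one has `∑ mᵢ mᵢ* = d`. -/
def IsJonesIndex (φ : R →⋆ₐ[ℂ] A) (d : ℝ) : Prop :=
  ∃ (τ : A →ₗ[ℂ] ℂ) (E : A →ₗ[ℂ] R), IsTracialState τ ∧ IsCondExp φ τ E ∧
    ∃ (n : ℕ) (m : Fin n → A), (∀ x, ∑ i, m i * φ (E (star (m i) * x)) = x) ∧
      ∑ i, m i * star (m i) = algebraMap ℂ A d

/-- The center of `A` consists of the scalars. -/
def TrivialCenter (A : Type u) [Ring A] [Algebra ℂ A] : Prop :=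
  ∀ z : A, (∀ x, z * x = x * z) → ∃ c : ℂ, z = algebraMap ℂ A c

end

section

variable {B : Type u} [Ring B] [StarRing B] [Algebra ℂ B] [StarModule ℂ B]

/-- The center of `M` consists of the scalars, `M` is infinite-dimensional and has a faithful
tracial state. For a von Neumann algebra `M` this says that `M` is a factor of type II₁. -/
def IsII1Factor (M : StarSubalgebra ℂ B) : Prop :=
  TrivialCenter M ∧ ¬ FiniteDimensional ℂ M ∧ ∃ τ : M →ₗ[ℂ] ℂ, IsTracialState τ

/-- `N ⊂ M` is an inclusion of II₁ factors of finite depth and of index `d`. -/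
def IsFiniteDepthSubfactor {N M : StarSubalgebra ℂ B} (h : N ≤ M) (d : ℝ) : Prop :=
  IsII1Factor N ∧ IsII1Factor M ∧ FiniteDepth (StarSubalgebra.inclusion h).toAlgHom ∧
    IsJonesIndex (StarSubalgebra.inclusion h) d

end

/-- The set of the indices `[M : N]` of the finite depth inclusions `N ⊂ M` of II₁ factors. -/
def indices : Set ℝ :=
  {d | ∃ (H : Type u) (_ : NormedAddCommGroup H) (_ : InnerProductSpace ℂ H)
    (_ : CompleteSpace H) (N M : VonNeumannAlgebra H)
    (h : N.toStarSubalgebra ≤ M.toStarSubalgebra), IsFiniteDepthSubfactor h d}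

end Pool.Agent.H60R2.SF
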